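import Mathlib
import Pool.Agent.MP_856411_pr.Defs

section

open MeasureTheory Set Filter Topology ProbabilityTheory
open scoped ENNReal

namespace Pool.Agent.MP_856411_pr

variable {V : Type}

/-- cylinder of paths that agree with `p` up to time `n` -/
def cyl (n : ℕ) (p : ℕ → V) : Set (ℕ → V) := {ω | ∀ k ≤ n, ω k = p k}

theorem self_mem_cyl (n : ℕ) (p : ℕ → V) : p ∈ cyl n p := fun _ _ => rfl

theorem cyl_anti {n m : ℕ} (h : n ≤ m) (p : ℕ → V) : cyl m p ⊆ cyl n p :=
  fun _ hω k hk => hω k (hk.trans h)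

theorem cyl_eq_of_mem {n : ℕ} {p ω : ℕ → V} (h : ω ∈ cyl n p) : cyl n ω = cyl n p := by
  ext z
  exact ⟨fun hz k hk => (hz k hk).trans (h k hk), fun hz k hk => (hz k hk).trans (h k hk).symm⟩

theorem mem_cyl_symm {n : ℕ} {p ω : ℕ → V} (h : ω ∈ cyl n p) : p ∈ cyl n ω :=
  fun k hk => (h k hk).symm

/-- the path extended by a prescribed value at time `n + 1` -/
def ext1 (ω : ℕ → V) (n : ℕ) (x : V) : ℕ → V := fun k => if k ≤ n then ω k else x

theorem ext1_mem (ω : ℕ → V) (n : ℕ) (x : V) : ext1 ω n x ∈ cyl n ω :=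
  fun k hk => by simp [ext1, hk]

@[simp] theorem ext1_succ (ω : ℕ → V) (n : ℕ) (x : V) : ext1 ω n x (n + 1) = x := by
  simp [ext1]

@[simp] theorem ext1_self (ω : ℕ → V) (n : ℕ) (x : V) : ext1 ω n x n = ω n := by
  simp [ext1]

theorem mem_cyl_ext1 {ω z : ℕ → V} {n : ℕ} {x : V} :
    z ∈ cyl (n + 1) (ext1 ω n x) ↔ z ∈ cyl n ω ∧ z (n + 1) = x := by
  constructor
  · intro h
    exact ⟨fun k hk => (h k (hk.trans (Nat.le_succ n))).trans (ext1_mem ω n x k hk),
      (h _ le_rfl).trans (ext1_succ ω n x)⟩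
  · rintro ⟨h1, h2⟩ k hk
    rcases Nat.lt_or_eq_of_le hk with h | h
    · have hk' : k ≤ n := Nat.lt_succ_iff.1 h
      rw [h1 k hk', ext1_mem ω n x k hk']
    · rw [h, h2, ext1_succ]

variable [MeasurableSpace V] [DiscreteMeasurableSpace V]

theorem measurableSet_cyl (n : ℕ) (p : ℕ → V) : MeasurableSet (cyl n p) := by
  have : cyl n p = ⋂ k, ⋂ _ : k ≤ n, (fun ω : ℕ → V => ω k) ⁻¹' {p k} := by
    ext ω; simp [cyl]
  rw [this]
  exact MeasurableSet.iInter fun k => MeasurableSet.iInter fun _ =>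
    measurable_pi_apply k (MeasurableSet.of_discrete)

variable [Countable V]

theorem exists_cyl_partition (n : ℕ) (U : Set (ℕ → V)) (hU : ∀ ω ∈ U, cyl n ω ⊆ U) :
    ∃ T : Set (ℕ → V), T.Countable ∧ T ⊆ U ∧ T.PairwiseDisjoint (cyl n) ∧ U = ⋃ p ∈ T, cyl n p := by
  let r : (ℕ → V) → (ℕ → V) := fun ω k => ω (min k n)
  have hr : ∀ ω, r ω ∈ cyl n ω := fun ω k hk => by simp [r, min_eq_left hk]
  refine ⟨r '' U, ?_, ?_, ?_, ?_⟩
  · have h1 : r '' U ⊆ range fun (f : Fin (n + 1) → V) (k : ℕ) =>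
        f ⟨min k n, Nat.lt_succ_of_le (min_le_right _ _)⟩ := by
      rintro _ ⟨ω, -, rfl⟩
      exact ⟨fun i => ω i, rfl⟩
    exact (countable_range _).mono h1
  · rintro _ ⟨ω, hω, rfl⟩
    exact hU ω hω (hr ω)
  · rintro _ ⟨ω, -, rfl⟩ _ ⟨ω', -, rfl⟩ hne
    refine Set.disjoint_left.2 fun z hz hz' => hne ?_
    funext k
    have h1 := hz (min k n) (min_le_right _ _)
    have h2 := hz' (min k n) (min_le_right _ _)
    simp only [r, min_assoc, min_self] at h1 h2 ⊢
    rw [← h1, ← h2]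
  · ext ω
    constructor
    · intro hω
      exact mem_biUnion (mem_image_of_mem r hω) (mem_cyl_symm (hr ω))
    · intro hω
      obtain ⟨_, ⟨z, hz, rfl⟩, h⟩ := mem_iUnion₂.1 hω
      exact hU z hz (cyl_eq_of_mem (hr z) ▸ h)

theorem measurableSet_of_adapted (n : ℕ) (U : Set (ℕ → V)) (hU : ∀ ω ∈ U, cyl n ω ⊆ U) :
    MeasurableSet U := by
  obtain ⟨T, h1, -, -, h4⟩ := exists_cyl_partition n U hU
  rw [h4]
  exact MeasurableSet.biUnion h1 fun p _ => measurableSet_cyl n p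

theorem measure_le_of_cyl (n : ℕ) (U : Set (ℕ → V)) (hU : ∀ ω ∈ U, cyl n ω ⊆ U)
    (ν₁ ν₂ : Measure (ℕ → V)) (h : ∀ ω ∈ U, ν₁ (cyl n ω) ≤ ν₂ (cyl n ω)) : ν₁ U ≤ ν₂ U := by
  obtain ⟨T, h1, h2, h3, h4⟩ := exists_cyl_partition n U hU
  rw [h4, measure_biUnion h1 h3 fun p _ => measurableSet_cyl n p,
    measure_biUnion h1 h3 fun p _ => measurableSet_cyl n p]
  exact ENNReal.tsum_le_tsum fun p => h p.1 (h2 p.2)

theorem measurable_of_adapted {β : Type} [MeasurableSpace β] (n : ℕ) (f : (ℕ → V) → β)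
    (hf : ∀ ω ω', ω' ∈ cyl n ω → f ω' = f ω) : Measurable f := fun s _ =>
  measurableSet_of_adapted n _ fun ω hω ω' hω' => by
    simp only [mem_preimage] at hω ⊢
    rw [hf ω ω' hω']; exact hω

theorem ae_cyl_ne_zero (μ : Measure (ℕ → V)) : ∀ᵐ ω ∂μ, ∀ n, μ (cyl n ω) ≠ 0 := by
  rw [ae_all_iff]
  intro n
  rw [ae_iff]
  refine le_antisymm ?_ zero_le
  refine (measure_le_of_cyl n _ (fun ω hω ω' hω' => ?_) μ 0 fun ω hω => ?_)
  · simp only [ne_eq, not_not, mem_setOf_eq] at hω ⊢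
    rw [cyl_eq_of_mem hω']; exact hω
  · simp only [ne_eq, not_not, mem_setOf_eq] at hω
    simp [hω]

/-- density lemma on path space -/
theorem null_of_density (μ : Measure (ℕ → V)) [IsFiniteMeasure μ] {A : Set (ℕ → V)}
    (hA : MeasurableSet A) {θ : ℝ≥0∞} (hθ : θ < 1)
    (h : ∀ ω ∈ A, ∀ N, ∃ n ≥ N, μ (A ∩ cyl n ω) ≤ θ * μ (cyl n ω)) : μ A = 0 := by
  letI : TopologicalSpace V := ⊥
  haveI : DiscreteTopology V := ⟨rfl⟩
  haveI : BorelSpace V := ⟨by
    rw [borel_eq_top_of_discrete]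
    exact eq_top_iff.2 fun s _ => MeasurableSet.of_discrete⟩
  by_contra hne
  have hθt : θ ≠ ∞ := hθ.ne_top
  -- choose an open superset with small excess
  obtain ⟨ε, hε, hεA⟩ : ∃ ε : ℝ≥0∞, ε ≠ 0 ∧ θ * (μ A + ε) < μ A := by
    have h1 : θ * μ A < μ A := by
      calc θ * μ A < 1 * μ A := ENNReal.mul_lt_mul_left hne (measure_ne_top _ _) hθ
        _ = μ A := one_mul _
    obtain ⟨ε, hε, h2⟩ := ENNReal.lt_iff_exists_add_pos_lt.1 h1
    refine ⟨ε, by exact_mod_cast hε.ne', lt_of_le_of_lt ?_ h2⟩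
    rw [mul_add]
    exact add_le_add_right (mul_le_of_le_one_left' hθ.le) _
  obtain ⟨U, hAU, hUo, hU⟩ := A.exists_isOpen_lt_add (measure_ne_top μ A) hε
  let P : ℕ → (ℕ → V) → Prop := fun n ω => cyl n ω ⊆ U ∧ μ (A ∩ cyl n ω) ≤ θ * μ (cyl n ω)
  have hP : ∀ n m ω ω', n ≤ m → ω' ∈ cyl m ω → (P n ω' ↔ P n ω) := fun n m ω ω' hnm h => by
    simp only [P, cyl_eq_of_mem (cyl_anti hnm ω h)]
  let W : ℕ → Set (ℕ → V) := fun n => {ω | P n ω ∧ ∀ k < n, ¬ P k ω}
  have hW : ∀ n, ∀ ω ∈ W n, cyl n ω ⊆ W n := fun n ω hω ω' hω' =>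
    ⟨(hP n n ω ω' le_rfl hω').2 hω.1, fun k hk hk' => hω.2 k hk ((hP k n ω ω' hk.le hω').1 hk')⟩
  have hWm : ∀ n, MeasurableSet (W n) := fun n => measurableSet_of_adapted n _ (hW n)
  have hWd : Pairwise (Function.onFun Disjoint W) := by
    intro n m hnm
    refine Set.disjoint_left.2 fun ω h1 h2 => ?_
    rcases lt_or_gt_of_ne hnm with h | h
    · exact h2.2 n h h1.1
    · exact h1.2 m h h2.1
  have hAW : A ⊆ ⋃ n, W n := by
    intro ω hω
    have h1 : ∃ N, cyl N ω ⊆ U := by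
      obtain ⟨I, u, hu, hIU⟩ := isOpen_pi_iff.1 hUo ω (hAU hω)
      refine ⟨I.sup id, fun z hz => hIU fun i hi => ?_⟩
      rw [hz i (Finset.le_sup (f := id) hi)]
      exact (hu i hi).2
    obtain ⟨N, hN⟩ := h1
    obtain ⟨n, hn, h2⟩ := h ω hω N
    have h3 : ∃ n, P n ω := ⟨n, (cyl_anti hn ω).trans hN, h2⟩
    classical
    exact mem_iUnion.2 ⟨Nat.find h3, Nat.find_spec h3, fun k hk => Nat.find_min h3 hk⟩
  have hWU : (⋃ n, W n) ⊆ U := iUnion_subset fun n ω hω => hω.1.1 (self_mem_cyl n ω)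
  have h1 : ∀ n, (μ.restrict A) (W n) ≤ (θ • μ) (W n) := fun n =>
    measure_le_of_cyl n _ (hW n) _ _ fun ω hω => by
      rw [Measure.restrict_apply (measurableSet_cyl n ω), inter_comm]
      exact hω.1.2
  have h2 : μ A ≤ θ * μ (⋃ n, W n) := by
    calc μ A = (μ.restrict A) (⋃ n, W n) := by
          rw [Measure.restrict_apply (MeasurableSet.iUnion hWm), inter_eq_right.2 hAW]
      _ = ∑' n, (μ.restrict A) (W n) := measure_iUnion hWd hWm
      _ ≤ ∑' n, (θ • μ) (W n) := ENNReal.tsum_le_tsum h1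
      _ = (θ • μ) (⋃ n, W n) := (measure_iUnion hWd hWm).symm
      _ = θ * μ (⋃ n, W n) := rfl
  exact absurd (h2.trans (mul_le_mul_right ((measure_mono hWU).trans hU.le) θ)) (not_le.2 hεA)

/-- a path measure with prescribed transition probabilities -/
def Step (q : (ℕ → V) → ℕ → V → ℝ) (μ : Measure (ℕ → V)) : Prop :=
  ∀ (n : ℕ) (p : ℕ → V), μ (cyl (n + 1) p) = μ (cyl n p) * ENNReal.ofReal (q p n (p (n + 1)))

theorem Step.supermart {q : (ℕ → V) → ℕ → V → ℝ} {μ : Measure (ℕ → V)} (hμ : Step q μ)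
    (hq : ∀ ω ω' n, ω' ∈ cyl n ω → q ω' n = q ω n) (hq0 : ∀ ω n x, 0 ≤ q ω n x)
    (nb : (ℕ → V) → ℕ → Finset V) (hnb : ∀ ω n x, x ∉ nb ω n → q ω n x = 0)
    (f : ℕ → (ℕ → V) → ℝ) (hf0 : ∀ n ω, 0 ≤ f n ω)
    (hf : ∀ n ω ω', ω' ∈ cyl n ω → f n ω' = f n ω) (n0 : ℕ) (p : ℕ → V)
    (hs : ∀ n ≥ n0, ∀ ω ∈ cyl n0 p, μ (cyl n ω) ≠ 0 →
      ∑ x ∈ nb ω n, q ω n x * f (n + 1) (ext1 ω n x) ≤ f n ω)
    {A : Set (ℕ → V)} (hA : MeasurableSet A) {L : ℝ}
    (hL : ∀ ω ∈ A ∩ cyl n0 p, Tendsto (fun n => f n ω) atTop (𝓝 L)) :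
    ENNReal.ofReal L * μ (A ∩ cyl n0 p) ≤ ENNReal.ofReal (f n0 p) * μ (cyl n0 p) := by
  let F : ℕ → (ℕ → V) → ℝ≥0∞ := fun n ω => ENNReal.ofReal (f n ω)
  have hFm : ∀ n, Measurable (F n) := fun n =>
    measurable_of_adapted n _ fun ω ω' h => by simp only [F, hf n ω ω' h]
  have hconst : ∀ n ω, ∫⁻ z in cyl n ω, F n z ∂μ = F n ω * μ (cyl n ω) := fun n ω => by
    rw [setLIntegral_congr_fun (measurableSet_cyl n ω) (g := fun _ => F n ω)
      (fun z hz => by simp only [F, hf n ω z hz]), setLIntegral_const]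
  have h1 : ∀ n ≥ n0, ∀ ω ∈ cyl n0 p,
      ∫⁻ z in cyl n ω, F (n + 1) z ∂μ ≤ ∫⁻ z in cyl n ω, F n z ∂μ := by
    intro n hn ω hω
    by_cases h0 : μ (cyl n ω) = 0
    · rw [setLIntegral_measure_zero _ _ h0]; exact zero_le
    have hu : cyl n ω = ⋃ x, cyl (n + 1) (ext1 ω n x) := by
      ext z
      simp only [mem_iUnion, mem_cyl_ext1]
      exact ⟨fun h => ⟨_, h, rfl⟩, fun ⟨_, h, _⟩ => h⟩
    have hd : Pairwise (Function.onFun Disjoint fun x => cyl (n + 1) (ext1 ω n x)) :=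
      fun x y hxy => Set.disjoint_left.2 fun z h1 h2 =>
        hxy ((mem_cyl_ext1.1 h1).2.symm.trans (mem_cyl_ext1.1 h2).2)
    rw [hconst n ω]
    conv_lhs => rw [hu, lintegral_iUnion (fun x => measurableSet_cyl _ _) hd]
    have h2 : ∀ x, ∫⁻ z in cyl (n + 1) (ext1 ω n x), F (n + 1) z ∂μ =
        ENNReal.ofReal (q ω n x * f (n + 1) (ext1 ω n x)) * μ (cyl n ω) := fun x => by
      rw [hconst, hμ, cyl_eq_of_mem (ext1_mem ω n x), hq _ _ _ (ext1_mem ω n x), ext1_succ,
        ENNReal.ofReal_mul (hq0 _ _ _)]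
      simp only [F]
      ring
    simp only [h2]
    rw [ENNReal.tsum_mul_right, tsum_eq_sum (s := nb ω n) (fun x hx => by simp [hnb ω n x hx]),
      ← ENNReal.ofReal_sum_of_nonneg (fun x _ => mul_nonneg (hq0 _ _ _) (hf0 _ _))]
    exact mul_le_mul_left (ENNReal.ofReal_le_ofReal (hs n hn ω hω h0)) _
  have h2 : ∀ n ≥ n0, ∫⁻ z in cyl n0 p, F n z ∂μ ≤ F n0 p * μ (cyl n0 p) := by
    intro n hn
    induction n, hn using Nat.le_induction with
    | base => exact (hconst n0 p).le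
    | succ n hn ih =>
      refine le_trans ?_ ih
      have := measure_le_of_cyl n (cyl n0 p) (fun ω hω => (cyl_anti hn ω).trans
        (cyl_eq_of_mem hω).subset) (μ.withDensity (F (n + 1))) (μ.withDensity (F n))
        (fun ω hω => by
          rw [withDensity_apply _ (measurableSet_cyl _ _), withDensity_apply _ (measurableSet_cyl _ _)]
          exact h1 n hn ω hω)
      rwa [withDensity_apply _ (measurableSet_cyl _ _),
        withDensity_apply _ (measurableSet_cyl _ _)] at this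
  have hAm : MeasurableSet (A ∩ cyl n0 p) := hA.inter (measurableSet_cyl _ _)
  calc ENNReal.ofReal L * μ (A ∩ cyl n0 p)
      = ∫⁻ z in A ∩ cyl n0 p, liminf (fun n => F n z) atTop ∂μ := by
        rw [setLIntegral_congr_fun hAm (g := fun _ => ENNReal.ofReal L)
          (fun z hz => (ENNReal.tendsto_ofReal (hL z hz)).liminf_eq), setLIntegral_const]
    _ ≤ ∫⁻ z in cyl n0 p, liminf (fun n => F n z) atTop ∂μ :=
        lintegral_mono_set inter_subset_right
    _ ≤ liminf (fun n => ∫⁻ z in cyl n0 p, F n z ∂μ) atTop := lintegral_liminf_le hFm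
    _ ≤ F n0 p * μ (cyl n0 p) :=
        liminf_le_of_frequently_le' ((eventually_ge_atTop n0).mono h2).frequently

theorem Step.lower {q : (ℕ → V) → ℕ → V → ℝ} {μ : Measure (ℕ → V)} (hμ : Step q μ)
    (p : ℕ → V) (n : ℕ) {ρ : ℝ} (hρ : 0 ≤ ρ) (j : ℕ)
    (h : ∀ k, n ≤ k → k < n + j → ρ ≤ q p k (p (k + 1))) :
    ENNReal.ofReal (ρ ^ j) * μ (cyl n p) ≤ μ (cyl (n + j) p) := by
  induction j with
  | zero => simp
  | succ j ih =>
    rw [← add_assoc, hμ, pow_succ, ENNReal.ofReal_mul (pow_nonneg hρ _), mul_right_comm]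
    exact mul_le_mul' (ih fun k h1 h2 => h k h1 (by omega))
      (ENNReal.ofReal_le_ofReal (h _ (by omega) (by omega)))

theorem Step.singleton_null {q : (ℕ → V) → ℕ → V → ℝ} {μ : Measure (ℕ → V)}
    [IsProbabilityMeasure μ] (hμ : Step q μ) (p : ℕ → V) (h1 : ∀ n, q p n (p (n + 1)) ≤ 1)
    (hs : ¬ Summable fun n => 1 - q p n (p (n + 1))) : μ {p} = 0 := by
  have h2 : ∀ n, μ (cyl n p) ≤
      ENNReal.ofReal (Real.exp (-∑ k ∈ Finset.range n, (1 - q p k (p (k + 1))))) := by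
    intro n
    induction n with
    | zero => simpa using prob_le_one
    | succ n ih =>
      rw [hμ, Finset.sum_range_succ, neg_add, Real.exp_add,
        ENNReal.ofReal_mul (Real.exp_pos _).le]
      refine mul_le_mul' ih (ENNReal.ofReal_le_ofReal ?_)
      have := Real.add_one_le_exp (-(1 - q p n (p (n + 1))))
      linarith
  have h3 := (not_summable_iff_tendsto_nat_atTop_of_nonneg
    (fun n => sub_nonneg.2 (h1 n))).1 hs
  have h4 := ENNReal.tendsto_ofReal (Real.tendsto_exp_neg_atTop_nhds_zero.comp h3)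
  rw [ENNReal.ofReal_zero] at h4
  refine le_antisymm (ge_of_tendsto' h4 fun n => le_trans (measure_mono ?_) (h2 n)) zero_le
  exact singleton_subset_iff.2 (self_mem_cyl n p)

theorem exists_step (q : (ℕ → V) → ℕ → V → ℝ)
    (hq : ∀ ω ω' n, ω' ∈ cyl n ω → q ω' n = q ω n) (hq0 : ∀ ω n x, 0 ≤ q ω n x)
    (nb : (ℕ → V) → ℕ → Finset V) (hnb : ∀ ω n x, x ∉ nb ω n → q ω n x = 0)
    (hsum : ∀ ω n, ∑ x ∈ nb ω n, q ω n x = 1) (v : V) :
    ∃ μ : Measure (ℕ → V), IsProbabilityMeasure μ ∧ μ {ω | ω 0 = v} = 1 ∧ Step q μ := by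
  let e : (n : ℕ) → (Finset.Iic n → V) → ℕ → V := fun n h k =>
    h ⟨min k n, Finset.mem_Iic.2 (min_le_right _ _)⟩
  let m : (ℕ → V) → ℕ → Measure V := fun ω n =>
    Measure.sum fun x => ENNReal.ofReal (q ω n x) • Measure.dirac x
  have hm : ∀ ω n x, m ω n {x} = ENNReal.ofReal (q ω n x) := fun ω n x =>
    Measure.sum_smul_dirac_singleton
  have hm1 : ∀ ω n, IsProbabilityMeasure (m ω n) := fun ω n => ⟨by
    simp only [m, Measure.sum_apply _ MeasurableSet.univ, Measure.smul_apply, measure_univ,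
      smul_eq_mul, mul_one]
    rw [tsum_eq_sum (s := nb ω n) (fun x hx => by simp [hnb ω n x hx]),
      ← ENNReal.ofReal_sum_of_nonneg (fun x _ => hq0 _ _ _), hsum, ENNReal.ofReal_one]⟩
  let κ : (n : ℕ) → Kernel (Finset.Iic n → V) V := fun n =>
    Kernel.ofFunOfCountable fun h => m (e n h) n
  haveI : ∀ n, IsMarkovKernel (κ n) := fun n => ⟨fun h => hm1 _ _⟩
  let μ : Measure (ℕ → V) := Kernel.trajMeasure (X := fun _ => V) (Measure.dirac v) κ
  refine ⟨μ, inferInstance, ?_, fun n p => ?_⟩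
  · have h1 : μ.map (Preorder.frestrictLe 0) = (Measure.dirac v).map
        (MeasurableEquiv.piUnique (fun i : Finset.Iic 0 => V)).symm := by
      simp only [μ, Kernel.trajMeasure]
      rw [Measure.map_comp _ _ (by fun_prop), Kernel.traj_map_frestrictLe]
      simp
    have h2 := congrArg (fun ν => ν {h | h ⟨0, by simp⟩ = v}) h1
    beta_reduce at h2
    rw [Measure.map_apply (by fun_prop) MeasurableSet.of_discrete,
      Measure.map_apply (by fun_prop) MeasurableSet.of_discrete] at h2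
    refine h2.trans ?_
    rw [Measure.dirac_apply_of_mem]
    rfl
  · have h1 := Kernel.map_frestrictLe_trajMeasure_compProd_eq_map_trajMeasure
      (X := fun _ => V) (μ₀ := Measure.dirac v) (κ := κ) (a := n)
    have h2 := congrArg (fun ν => ν ({Preorder.frestrictLe n p} ×ˢ {p (n + 1)})) h1
    beta_reduce at h2
    rw [Measure.compProd_apply_prod MeasurableSet.of_discrete MeasurableSet.of_discrete,
      lintegral_singleton, Measure.map_apply (by fun_prop) MeasurableSet.of_discrete,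
      Measure.map_apply (by fun_prop) MeasurableSet.of_discrete] at h2
    have h3 : (Preorder.frestrictLe (π := fun _ => V) n) ⁻¹' {Preorder.frestrictLe n p} =
        cyl n p := by
      ext ω
      simp only [mem_preimage, mem_singleton_iff, cyl, mem_setOf_eq]
      exact ⟨fun h k hk => congrFun h ⟨k, Finset.mem_Iic.2 hk⟩,
        fun h => funext fun i => h i.1 (Finset.mem_Iic.1 i.2)⟩
    have h4 : (fun x : ℕ → V => (Preorder.frestrictLe (π := fun _ => V) n x, x (n + 1))) ⁻¹'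
        ({Preorder.frestrictLe n p} ×ˢ {p (n + 1)}) = cyl (n + 1) p := by
      ext ω
      have h5 : Preorder.frestrictLe (π := fun _ => V) n ω = Preorder.frestrictLe n p ↔
          ω ∈ cyl n p := by rw [← h3]; rfl
      simp only [mem_preimage, mem_prod, mem_singleton_iff, h5]
      refine ⟨fun h k hk => ?_, fun h => ⟨cyl_anti (Nat.le_succ n) p h, h _ le_rfl⟩⟩
      rcases Nat.lt_or_eq_of_le hk with h6 | h6
      · exact h.1 k (Nat.lt_succ_iff.1 h6)
      · rw [h6]; exact h.2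
    have h5 : κ n (Preorder.frestrictLe n p) {p (n + 1)} =
        ENNReal.ofReal (q p n (p (n + 1))) := by
      have h6 : e n (Preorder.frestrictLe n p) ∈ cyl n p := fun k hk => by
        simp [e, min_eq_left hk]
      rw [← hq p _ n h6]
      exact hm _ _ _
    rw [h3, h4, h5] at h2
    rw [← h2, mul_comm]

end Pool.Agent.MP_856411_pr

end

section

open MeasureTheory Set Filter Topology
open scoped ENNReal

namespace Pool.Agent.MP_856411_pr

variable {V : Type}

open Classical in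
theorem cross_succ (ω : ℕ → V) (n : ℕ) (x y : V) : cross ω (n + 1) x y = cross ω n x y +
    ((if ω n = x ∧ ω (n + 1) = y then 1 else 0) - (if ω n = y ∧ ω (n + 1) = x then 1 else 0)) := by
  unfold cross
  rw [Finset.sum_range_succ]

theorem cross_zero (ω : ℕ → V) (x y : V) : cross ω 0 x y = 0 := by simp [cross]

theorem cross_anti (ω : ℕ → V) (n : ℕ) (x y : V) : cross ω n y x = - cross ω n x y := by
  induction n with
  | zero => simp [cross_zero]
  | succ n ih => rw [cross_succ, cross_succ, ih]; ring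

theorem cross_congr {ω ω' : ℕ → V} {n : ℕ} (h : ω' ∈ cyl n ω) : cross ω' n = cross ω n := by
  funext x y
  unfold cross
  refine Finset.sum_congr rfl fun k hk => ?_
  have hk' := Finset.mem_range.1 hk
  rw [h k hk'.le, h (k + 1) hk']

theorem cross_succ_fwd {ω : ℕ → V} {n : ℕ} (h : ω n ≠ ω (n + 1)) :
    cross ω (n + 1) (ω n) (ω (n + 1)) = cross ω n (ω n) (ω (n + 1)) + 1 := by
  rw [cross_succ]; simp [h]

theorem cross_succ_other {ω : ℕ → V} {n : ℕ} {x y : V} (h1 : ¬ (ω n = x ∧ ω (n + 1) = y))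
    (h2 : ¬ (ω n = y ∧ ω (n + 1) = x)) : cross ω (n + 1) x y = cross ω n x y := by
  rw [cross_succ]; simp [h1, h2]

theorem cross_succ_ge {ω : ℕ → V} {n : ℕ} {x y : V} (h2 : ¬ (ω n = y ∧ ω (n + 1) = x)) :
    cross ω n x y ≤ cross ω (n + 1) x y := by
  rw [cross_succ, if_neg h2]; split_ifs <;> omega

theorem cross_mono {ω : ℕ → V} {a b : ℕ} (hab : a ≤ b) {x y : V}
    (h : ∀ k, a ≤ k → k < b → ¬ (ω k = y ∧ ω (k + 1) = x)) : cross ω a x y ≤ cross ω b x y := by
  induction b, hab using Nat.le_induction with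
  | base => exact le_rfl
  | succ b hab ih =>
    exact (ih fun k h1 h2 => h k h1 (by omega)).trans (cross_succ_ge (h b hab (by omega)))

theorem abs_cross_le (ω : ℕ → V) (n : ℕ) (x y : V) : |cross ω n x y| ≤ n := by
  induction n with
  | zero => simp [cross_zero]
  | succ n ih =>
    rw [cross_succ, abs_le] at *
    push_cast
    split_ifs <;> omega

theorem exists_step_of_pos {ω : ℕ → V} {n : ℕ} {x y : V} (h : 0 < cross ω n x y) :
    ∃ k < n, ω k = x ∧ ω (k + 1) = y := by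
  by_contra hc
  push Not at hc
  have := cross_mono (ω := ω) (Nat.zero_le n) (x := y) (y := x)
    (fun k _ hk hh => hc k hk hh.1 hh.2)
  rw [cross_zero, cross_anti] at this
  omega

theorem weight_pos (γ : ℝ) (c : ℤ) : 0 < weight γ c := by
  unfold weight
  split_ifs with h1 h2
  · exact Real.rpow_pos_of_pos (by exact_mod_cast h1) _
  · exact one_pos
  · refine Real.rpow_pos_of_pos ?_ _
    have : c < 0 := by omega
    have : (c : ℝ) < 0 := by exact_mod_cast this
    linarith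

theorem weight_of_pos (γ : ℝ) {c : ℤ} (h : 0 < c) : weight γ c = (c : ℝ) ^ γ := by
  simp [weight, h]

theorem weight_of_neg (γ : ℝ) {c : ℤ} (h : c < 0) : weight γ c = (-(c : ℝ)) ^ (-γ) := by
  have h1 : ¬ 0 < c := by omega
  simp [weight, h1, h.ne]

theorem weight_le_one {γ : ℝ} (hγ : 0 < γ) {c : ℤ} (h : c ≤ 0) : weight γ c ≤ 1 := by
  rcases h.eq_or_lt with rfl | h
  · simp [weight]
  · rw [weight_of_neg γ h]
    refine Real.rpow_le_one_of_one_le_of_nonpos ?_ (by linarith)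
    have : c ≤ -1 := by omega
    have : (c : ℝ) ≤ -1 := by exact_mod_cast this
    linarith

theorem weight_eq_one (γ : ℝ) {c : ℤ} (h : c ≤ 0) (h' : -1 ≤ c) : weight γ c = 1 := by
  rcases h.eq_or_lt with rfl | h
  · simp [weight]
  · have : c = -1 := by omega
    subst this
    simp [weight]

theorem weight_le {γ : ℝ} (hγ : 0 < γ) {c : ℤ} {n : ℕ} (h : |c| ≤ n) :
    weight γ c ≤ ((n : ℝ) + 1) ^ γ := by
  have h1 : (1 : ℝ) ≤ (n : ℝ) + 1 := by linarith [Nat.cast_nonneg (α := ℝ) n]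
  rcases le_or_gt c 0 with hc | hc
  · exact (weight_le_one hγ hc).trans (Real.one_le_rpow h1 hγ.le)
  · rw [weight_of_pos γ hc]
    refine Real.rpow_le_rpow (by exact_mod_cast hc.le) ?_ hγ.le
    have : c ≤ n := (le_abs_self c).trans h
    have : (c : ℝ) ≤ n := by exact_mod_cast this
    linarith

theorem le_weight {γ : ℝ} (hγ : 0 < γ) {c : ℤ} {n : ℕ} (h : |c| ≤ n) :
    ((n : ℝ) + 1) ^ (-γ) ≤ weight γ c := by
  have h1 : (1 : ℝ) ≤ (n : ℝ) + 1 := by linarith [Nat.cast_nonneg (α := ℝ) n]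
  have h2 : ((n : ℝ) + 1) ^ (-γ) ≤ 1 := Real.rpow_le_one_of_one_le_of_nonpos h1 (by linarith)
  rcases lt_trichotomy c 0 with hc | hc | hc
  · rw [weight_of_neg γ hc]
    have h3 : (c : ℝ) < 0 := by exact_mod_cast hc
    refine Real.rpow_le_rpow_of_nonpos (by linarith) ?_ (by linarith)
    have : -c ≤ n := (neg_le_abs c).trans h
    have : -(c : ℝ) ≤ n := by exact_mod_cast this
    linarith
  · subst hc; simpa [weight] using h2
  · rw [weight_of_pos γ hc]
    exact h2.trans (Real.one_le_rpow (by exact_mod_cast hc) hγ.le)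

/-- a graph with explicit neighbour sets of bounded size and no isolated vertex -/
structure Ctx (G : SimpleGraph V) (nb : V → Finset V) (D : ℕ) : Prop where
  mem : ∀ x y, y ∈ nb x ↔ G.Adj x y
  card : ∀ x, (nb x).card ≤ D
  ne : ∀ x, (nb x).Nonempty

/-- total weight at the current position -/
noncomputable def tot (nb : V → Finset V) (γ : ℝ) (ω : ℕ → V) (n : ℕ) : ℝ :=
  ∑ y ∈ nb (ω n), weight γ (cross ω n (ω n) y)

/-- the path starts at `v` and follows edges up to time `n` -/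
def Valid (G : SimpleGraph V) (v : V) (ω : ℕ → V) (n : ℕ) : Prop :=
  ω 0 = v ∧ ∀ k < n, G.Adj (ω k) (ω (k + 1))

variable {G : SimpleGraph V} {nb : V → Finset V} {D : ℕ} {γ : ℝ} {v : V}

theorem Valid.mono {ω : ℕ → V} {n m : ℕ} (h : Valid G v ω n) (hm : m ≤ n) : Valid G v ω m :=
  ⟨h.1, fun k hk => h.2 k (hk.trans_le hm)⟩

theorem Valid.congr {ω ω' : ℕ → V} {n : ℕ} (h : Valid G v ω n) (h' : ω' ∈ cyl n ω) :
    Valid G v ω' n :=
  ⟨(h' 0 (Nat.zero_le n)).trans h.1, fun k hk => by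
    rw [h' k hk.le, h' (k + 1) hk]; exact h.2 k hk⟩

theorem Ctx.one_le (h : Ctx G nb D) (x : V) : 1 ≤ D :=
  (Finset.card_pos.2 (h.ne x)).trans_le (h.card x)

theorem Ctx.tot_pos (h : Ctx G nb D) (γ : ℝ) (ω : ℕ → V) (n : ℕ) : 0 < tot nb γ ω n :=
  Finset.sum_pos (fun _ _ => weight_pos _ _) (h.ne _)

theorem Ctx.trans_of_mem (h : Ctx G nb D) (γ : ℝ) (ω : ℕ → V) (n : ℕ) {x : V}
    (hx : x ∈ nb (ω n)) : trans G γ ω n x = weight γ (cross ω n (ω n) x) / tot nb γ ω n := by
  have h1 : G.neighborSet (ω n) = ↑(nb (ω n)) := by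
    ext y; simp [h.mem]
  unfold trans tot
  rw [if_pos ((h.mem _ _).1 hx), h1, finsum_mem_coe_finset]

theorem Ctx.trans_of_not_mem (h : Ctx G nb D) (γ : ℝ) (ω : ℕ → V) (n : ℕ) {x : V}
    (hx : x ∉ nb (ω n)) : trans G γ ω n x = 0 := by
  unfold trans
  rw [if_neg (fun hh => hx ((h.mem _ _).2 hh))]

theorem Ctx.trans_nonneg (h : Ctx G nb D) (γ : ℝ) (ω : ℕ → V) (n : ℕ) (x : V) :
    0 ≤ trans G γ ω n x := by
  by_cases hx : x ∈ nb (ω n)
  · rw [h.trans_of_mem γ ω n hx]
    exact div_nonneg (weight_pos _ _).le (h.tot_pos γ ω n).le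
  · rw [h.trans_of_not_mem γ ω n hx]

theorem Ctx.trans_sum (h : Ctx G nb D) (γ : ℝ) (ω : ℕ → V) (n : ℕ) :
    ∑ x ∈ nb (ω n), trans G γ ω n x = 1 := by
  rw [Finset.sum_congr rfl fun x hx => h.trans_of_mem γ ω n hx, ← Finset.sum_div]
  exact div_self (h.tot_pos γ ω n).ne'

theorem trans_congr (G : SimpleGraph V) (γ : ℝ) (ω ω' : ℕ → V) (n : ℕ) (h : ω' ∈ cyl n ω) :
    trans G γ ω' n = trans G γ ω n := by
  funext x
  unfold trans
  rw [cross_congr h, h n le_rfl]

theorem Ctx.trans_add_le (h : Ctx G nb D) (γ : ℝ) (ω : ℕ → V) (n : ℕ) {x z : V} (hxz : x ≠ z) :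
    trans G γ ω n x + trans G γ ω n z ≤ 1 := by
  classical
  rw [← h.trans_sum γ ω n, ← Finset.sum_pair hxz (f := trans G γ ω n)]
  calc ∑ y ∈ {x, z}, trans G γ ω n y ≤ ∑ y ∈ {x, z} ∪ nb (ω n), trans G γ ω n y :=
        Finset.sum_le_sum_of_subset_of_nonneg Finset.subset_union_left
          fun y _ _ => h.trans_nonneg γ ω n y
    _ = ∑ y ∈ nb (ω n), trans G γ ω n y :=
        (Finset.sum_subset Finset.subset_union_right
          fun y _ hy => h.trans_of_not_mem γ ω n hy).symm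

theorem Ctx.trans_le_one (h : Ctx G nb D) (γ : ℝ) (ω : ℕ → V) (n : ℕ) (x : V) :
    trans G γ ω n x ≤ 1 := by
  by_cases hx : x ∈ nb (ω n)
  · rw [← h.trans_sum γ ω n]
    exact Finset.single_le_sum (fun y _ => h.trans_nonneg γ ω n y) hx
  · rw [h.trans_of_not_mem γ ω n hx]; exact zero_le_one

open Classical in
theorem Ctx.conservation (h : Ctx G nb D) {ω : ℕ → V} {n : ℕ} (hv : Valid G v ω n) (x : V) :
    ∑ y ∈ nb x, cross ω n x y = (if x = v then 1 else 0) - (if x = ω n then 1 else 0) := by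
  induction n with
  | zero => simp [cross_zero, hv.1]
  | succ n ih =>
    have hadj := hv.2 n (Nat.lt_succ_self n)
    simp only [cross_succ, Finset.sum_add_distrib, Finset.sum_sub_distrib,
      ih (hv.mono (Nat.le_succ n))]
    have h1 : ∑ y ∈ nb x, (if ω n = x ∧ ω (n + 1) = y then (1 : ℤ) else 0) =
        if x = ω n then 1 else 0 := by
      by_cases hx : x = ω n
      · subst hx
        simp [Finset.sum_ite_eq, (h.mem _ _).2 hadj]
      · simp [hx, Ne.symm hx]
    have h2 : ∑ y ∈ nb x, (if ω n = y ∧ ω (n + 1) = x then (1 : ℤ) else 0) =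
        if x = ω (n + 1) then 1 else 0 := by
      by_cases hx : x = ω (n + 1)
      · subst hx
        simp [Finset.sum_ite_eq, (h.mem _ _).2 hadj.symm]
      · simp [hx, Ne.symm hx]
    rw [h1, h2]
    ring

theorem Ctx.sum_ge (h : Ctx G nb D) {ω : ℕ → V} {n : ℕ} (hv : Valid G v ω n) (x : V) :
    -1 ≤ ∑ y ∈ nb x, cross ω n x y := by
  rw [h.conservation hv]; split_ifs <;> omega

theorem Ctx.sum_le (h : Ctx G nb D) {ω : ℕ → V} {n : ℕ} (hv : Valid G v ω n) (x : V) :
    ∑ y ∈ nb x, cross ω n x y ≤ 1 := by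
  rw [h.conservation hv]; split_ifs <;> omega

theorem Ctx.mem_of_pos (h : Ctx G nb D) {ω : ℕ → V} {n : ℕ} (hv : Valid G v ω n) {x y : V}
    (hp : 0 < cross ω n x y) : y ∈ nb x := by
  obtain ⟨k, hk, rfl, rfl⟩ := exists_step_of_pos hp
  exact (h.mem _ _).2 (hv.2 k hk)

/-- no positive edge at `x` forces all crossing numbers at `x` to be at least minus one -/
theorem Ctx.ge_neg_one (h : Ctx G nb D) {ω : ℕ → V} {n : ℕ} (hv : Valid G v ω n) {x : V}
    (hx : ∀ y, cross ω n x y ≤ 0) {y : V} (hy : y ∈ nb x) : -1 ≤ cross ω n x y := by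
  classical
  have h1 := h.sum_ge hv x
  rw [← Finset.add_sum_erase _ _ hy] at h1
  have h2 : ∑ z ∈ (nb x).erase y, cross ω n x z ≤ 0 := Finset.sum_nonpos fun z _ => hx z
  omega

theorem Ctx.trans_ge (h : Ctx G nb D) (hγ : 0 < γ) {ω : ℕ → V} {n : ℕ} (hv : Valid G v ω n)
    (hx : ∀ y, cross ω n (ω n) y ≤ 0) {y : V} (hy : G.Adj (ω n) y) :
    1 / (D : ℝ) ≤ trans G γ ω n y := by
  have hy' := (h.mem _ _).2 hy
  rw [h.trans_of_mem γ ω n hy', weight_eq_one γ (hx y) (h.ge_neg_one hv hx hy')]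
  refine one_div_le_one_div_of_le (h.tot_pos γ ω n) ?_
  calc tot nb γ ω n ≤ ∑ _z ∈ nb (ω n), (1 : ℝ) :=
        Finset.sum_le_sum fun z _ => weight_le_one hγ (hx z)
    _ ≤ D := by simpa using h.card (ω n)

variable [MeasurableSpace V] [DiscreteMeasurableSpace V] [Countable V]

theorem IsWalkLaw.step {μ : Measure (ℕ → V)} (h : IsWalkLaw G γ v μ) : Step (trans G γ) μ :=
  h.2.2

theorem Ctx.exists_law (h : Ctx G nb D) (γ : ℝ) (v : V) : ∃ μ, IsWalkLaw G γ v μ :=
  exists_step (trans G γ) (trans_congr G γ) (h.trans_nonneg γ) (fun ω n => nb (ω n))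
    (fun ω n _ hx => h.trans_of_not_mem γ ω n hx) (h.trans_sum γ) v

theorem IsWalkLaw.valid {μ : Measure (ℕ → V)} (hμ : IsWalkLaw G γ v μ) {ω : ℕ → V} {n : ℕ}
    (h0 : μ (cyl n ω) ≠ 0) : Valid G v ω n := by
  have := hμ.1
  constructor
  · by_contra hne
    refine h0 (measure_mono_null (t := {ω : ℕ → V | ω 0 = v}ᶜ) (fun z hz hz' => hne ?_) ?_)
    · exact (hz 0 (Nat.zero_le n)).symm.trans hz'
    · have hm : MeasurableSet {ω : ℕ → V | ω 0 = v} :=
        measurable_pi_apply (X := fun _ : ℕ => V) 0 (MeasurableSet.of_discrete (s := {v}))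
      exact (prob_compl_eq_zero_iff hm).2 hμ.2.1
  · intro k hk
    by_contra hne
    refine h0 (measure_mono_null (cyl_anti hk ω) ?_)
    rw [hμ.step]
    simp [trans, hne]

theorem IsWalkLaw.ae_valid {μ : Measure (ℕ → V)} (hμ : IsWalkLaw G γ v μ) :
    ∀ᵐ ω ∂μ, ∀ n, Valid G v ω n :=
  (ae_cyl_ne_zero μ).mono fun _ h n => hμ.valid (h n)

end Pool.Agent.MP_856411_pr

end

section

open MeasureTheory Set Filter Topology
open scoped ENNReal

namespace Pool.Agent.MP_856411_pr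

variable {V : Type} {G : SimpleGraph V} {nb : V → Finset V} {D : ℕ} {γ : ℝ} {v : V}

/-- all steps in the time window use edges with positive crossing number -/
def Pos (ω : ℕ → V) (n0 n : ℕ) : Prop := ∀ k, n0 ≤ k → k < n → 0 < cross ω k (ω k) (ω (k + 1))

/-- some edge at the current position has positive crossing number -/
def HasPos (ω : ℕ → V) (n : ℕ) : Prop := ∃ y, 0 < cross ω n (ω n) y

/-- total positive outflow -/
noncomputable def out (nb : V → Finset V) (ω : ℕ → V) (n : ℕ) (x : V) : ℕ :=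
  ∑ y ∈ nb x, (cross ω n x y).toNat

theorem ne_of_cross_pos {ω : ℕ → V} {n : ℕ} {x y : V} (h : 0 < cross ω n x y) : x ≠ y := by
  rintro rfl
  have := cross_anti ω n x x
  omega

open Classical in
theorem toNat_step {ω : ℕ → V} {n : ℕ} (h : 0 < cross ω n (ω n) (ω (n + 1))) (x y : V) :
    (cross ω (n + 1) x y).toNat =
      (cross ω n x y).toNat + if ω n = x ∧ ω (n + 1) = y then 1 else 0 := by
  have hne := ne_of_cross_pos h
  rw [cross_succ]
  by_cases h1 : ω n = x ∧ ω (n + 1) = y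
  · obtain ⟨rfl, rfl⟩ := h1
    simp only [and_self, if_true, hne, false_and, if_false]
    omega
  · by_cases h2 : ω n = y ∧ ω (n + 1) = x
    · obtain ⟨rfl, rfl⟩ := h2
      have := cross_anti ω n (ω n) (ω (n + 1))
      simp only [and_self, if_true, hne, false_and, if_false]
      omega
    · simp [h1, h2]

theorem pos_step {ω : ℕ → V} {n : ℕ} (h : 0 < cross ω n (ω n) (ω (n + 1))) (x y : V) :
    0 < cross ω (n + 1) x y ↔ 0 < cross ω n x y := by
  have h1 := toNat_step h x y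
  split_ifs at h1 with h2
  · obtain ⟨rfl, rfl⟩ := h2
    omega
  · omega

theorem Pos.mono {ω : ℕ → V} {n0 n m : ℕ} (h : Pos ω n0 n) (hm : m ≤ n) : Pos ω n0 m :=
  fun k h1 h2 => h k h1 (h2.trans_le hm)

theorem Pos.congr {ω ω' : ℕ → V} {n0 n : ℕ} (h : Pos ω n0 n) (h' : ω' ∈ cyl n ω) :
    Pos ω' n0 n := fun k h1 h2 => by
  rw [cross_congr (cyl_anti h2.le ω h'), h' k h2.le, h' (k + 1) h2]
  exact h k h1 h2

theorem pos_succ_iff {ω : ℕ → V} {n0 n : ℕ} (hn : n0 ≤ n) :
    Pos ω n0 (n + 1) ↔ Pos ω n0 n ∧ 0 < cross ω n (ω n) (ω (n + 1)) :=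
  ⟨fun h => ⟨h.mono (Nat.le_succ n), h n hn (Nat.lt_succ_self n)⟩, fun h k h1 h2 => by
    rcases Nat.lt_or_eq_of_le (Nat.lt_succ_iff.1 h2) with h3 | h3
    · exact h.1 k h1 h3
    · exact h3 ▸ h.2⟩

theorem pos_ext1 {ω : ℕ → V} {n0 n : ℕ} (hn : n0 ≤ n) (x : V) :
    Pos (ext1 ω n x) n0 (n + 1) ↔ Pos ω n0 n ∧ 0 < cross ω n (ω n) x := by
  rw [pos_succ_iff hn, cross_congr (ext1_mem ω n x), ext1_self, ext1_succ]
  exact and_congr_left' ⟨fun h => h.congr (mem_cyl_symm (ext1_mem ω n x)),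
    fun h => h.congr (ext1_mem ω n x)⟩

theorem Pos.sign {ω : ℕ → V} {n0 n : ℕ} (hn : n0 ≤ n) (h : Pos ω n0 n) (x y : V) :
    0 < cross ω n x y ↔ 0 < cross ω n0 x y := by
  induction n, hn using Nat.le_induction with
  | base => rfl
  | succ n hn ih =>
    rw [pos_succ_iff hn] at h
    rw [pos_step h.2, ih h.1]

theorem Pos.mem {ω : ℕ → V} {n0 n : ℕ} (hn : n0 ≤ n) (h : Pos ω n0 n) {S : Set V}
    (h0 : ω n0 ∈ S) (hS : ∀ x ∈ S, ∀ y, 0 < cross ω n0 x y → y ∈ S) : ω n ∈ S := by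
  induction n, hn using Nat.le_induction with
  | base => exact h0
  | succ n hn ih =>
    rw [pos_succ_iff hn] at h
    exact hS _ (ih h.1) _ ((h.1.sign hn _ _).1 h.2)

theorem Ctx.hasPos_step (h : Ctx G nb D) {ω : ℕ → V} {n : ℕ} (hv : Valid G v ω (n + 1))
    (hp : 0 < cross ω n (ω n) (ω (n + 1))) : HasPos ω (n + 1) := by
  by_contra hc
  simp only [HasPos, not_exists, not_lt] at hc
  have h1 := h.ge_neg_one hv hc ((h.mem _ _).2 (hv.2 n (Nat.lt_succ_self n)).symm)
  rw [cross_anti, cross_succ_fwd (ne_of_cross_pos hp)] at h1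
  omega

theorem Ctx.hasPos (h : Ctx G nb D) {ω : ℕ → V} {n0 n : ℕ} (hn : n0 ≤ n) (hv : Valid G v ω n)
    (hp : Pos ω n0 n) (h0 : HasPos ω n0) : HasPos ω n := by
  rcases Nat.eq_or_lt_of_le hn with rfl | hlt
  · exact h0
  · obtain ⟨m, rfl⟩ : ∃ m, n = m + 1 := ⟨n - 1, by omega⟩
    exact h.hasPos_step hv (hp m (by omega) (by omega))

open Classical in
theorem out_step {ω : ℕ → V} {n : ℕ} (h : 0 < cross ω n (ω n) (ω (n + 1)))
    (hm : ω (n + 1) ∈ nb (ω n)) (x : V) :
    out nb ω (n + 1) x = out nb ω n x + if ω n = x then 1 else 0 := by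
  unfold out
  simp only [toNat_step h, Finset.sum_add_distrib]
  congr 1
  by_cases hx : ω n = x
  · subst hx
    simp [Finset.sum_ite_eq, hm]
  · simp [hx]

theorem exists_potential {η : ℕ → ℝ} (h0 : ∀ j, 0 ≤ η j) (hs : Summable η) :
    ∃ (π : ℕ → ℝ) (δ : ℝ), 0 < δ ∧ δ ≤ 1 ∧ (∀ j, δ ≤ π j) ∧ (∀ j, π j ≤ 1) ∧
      ∀ j, π (j + 1) = π j * (1 + η j) := by
  let R : ℕ → ℝ := fun j => ∏ i ∈ Finset.range j, (1 + η i)
  have hΓ : 0 < Real.exp (∑' i, η i) := Real.exp_pos _
  have h1 : ∀ j, 1 ≤ R j := fun j =>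
    le_trans (by simp) (Finset.prod_le_prod (s := Finset.range j) (f := fun _ => (1 : ℝ))
      (fun _ _ => zero_le_one) fun i _ => le_add_of_nonneg_right (h0 i))
  have h2 : ∀ j, R j ≤ Real.exp (∑' i, η i) := fun j => by
    calc R j ≤ ∏ i ∈ Finset.range j, Real.exp (η i) :=
          Finset.prod_le_prod (fun i _ => by linarith [h0 i])
            fun i _ => by linarith [Real.add_one_le_exp (η i)]
      _ = Real.exp (∑ i ∈ Finset.range j, η i) := (Real.exp_sum _ _).symm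
      _ ≤ _ := Real.exp_le_exp.2 (hs.sum_le_tsum _ fun i _ => h0 i)
  refine ⟨fun j => R j / Real.exp (∑' i, η i), 1 / Real.exp (∑' i, η i), by positivity,
    (div_le_one hΓ).2 ((h1 0).trans (h2 0)), fun j => div_le_div_of_nonneg_right (h1 j) hΓ.le,
    fun j => (div_le_one hΓ).2 (h2 j), fun j => ?_⟩
  simp only [R, Finset.prod_range_succ]
  ring

/-- the non-positive edges at the current position are dominated by the positive ones -/
def Dom (G : SimpleGraph V) (nb : V → Finset V) (γ : ℝ) (v : V) (η : ℕ → ℝ) : Prop :=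
  ∀ ω n, Valid G v ω n → HasPos ω n →
    ∑ y ∈ (nb (ω n)).filter (fun y => ¬ 0 < cross ω n (ω n) y), weight γ (cross ω n (ω n) y) ≤
      η (out nb ω n (ω n)) *
        ∑ y ∈ (nb (ω n)).filter (fun y => 0 < cross ω n (ω n) y), weight γ (cross ω n (ω n) y)

variable [MeasurableSpace V] [DiscreteMeasurableSpace V] [Countable V]

theorem measurableSet_pos (n0 : ℕ) : MeasurableSet {ω : ℕ → V | ∀ n, Pos ω n0 n} := by
  rw [setOf_forall]
  exact MeasurableSet.iInter fun n => measurableSet_of_adapted n _ fun ω hω ω' h => hω.congr h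

theorem Ctx.stage1 (h : Ctx G nb D) {η : ℕ → ℝ} (h0 : ∀ j, 0 ≤ η j) (hs : Summable η)
    (hη : Dom G nb γ v η) : ∃ δ : ℝ, 0 < δ ∧ δ ≤ 1 ∧ ∀ μ, IsWalkLaw G γ v μ →
      ∀ (S : Finset V) (n0 : ℕ) (p : ℕ → V), p n0 ∈ S →
      (∀ x ∈ S, ∀ y, 0 < cross p n0 x y → y ∈ S) → HasPos p n0 →
      μ ({ω | ∀ n, Pos ω n0 n}ᶜ ∩ cyl n0 p) ≤ ENNReal.ofReal (1 - δ ^ S.card) * μ (cyl n0 p) := by
  classical
  obtain ⟨π, δ, hδ, hδ1, hπ1, hπ2, hπ⟩ := exists_potential h0 hs
  refine ⟨δ, hδ, hδ1, fun μ hμ S n0 p hp hS hpos => ?_⟩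
  let Ψ : ℕ → (ℕ → V) → ℝ := fun n ω => ∏ x ∈ S, π (out nb ω n x)
  have hΨ1 : ∀ n ω, Ψ n ω ≤ 1 := fun n ω =>
    Finset.prod_le_one (fun x _ => hδ.le.trans (hπ1 _)) fun x _ => hπ2 _
  have hΨ0 : ∀ n ω, δ ^ S.card ≤ Ψ n ω := fun n ω => by
    rw [← Finset.prod_const]
    exact Finset.prod_le_prod (fun _ _ => hδ.le) fun x _ => hπ1 _
  let f : ℕ → (ℕ → V) → ℝ := fun n ω => 1 - if Pos ω n0 n then Ψ n ω else 0
  have key := hμ.step.supermart (trans_congr G γ) (h.trans_nonneg γ) (fun ω n => nb (ω n))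
    (fun ω n _ hx => h.trans_of_not_mem γ ω n hx) f (fun n ω => by
      simp only [f]
      split_ifs
      · linarith [hΨ1 n ω]
      · norm_num) (fun n ω ω' hω => by
      have h1 : Pos ω' n0 n ↔ Pos ω n0 n := ⟨fun hh => hh.congr (mem_cyl_symm hω),
        fun hh => hh.congr hω⟩
      simp only [f, Ψ, out, h1, cross_congr hω]) n0 p (fun n hn ω hω hne => ?_)
    (A := {ω | ∀ n, Pos ω n0 n}ᶜ) (measurableSet_pos n0).compl (L := 1) (fun ω hω => ?_)
  · rw [ENNReal.ofReal_one, one_mul] at key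
    refine key.trans (mul_le_mul_left (ENNReal.ofReal_le_ofReal ?_) _)
    have : Pos p n0 n0 := fun k h1 h2 => absurd h1 (not_le.2 h2)
    simp only [f, this, if_true]
    linarith [hΨ0 n0 p]
  · have hv := hμ.valid hne
    simp only [f, pos_ext1 hn, mul_sub, mul_one, Finset.sum_sub_distrib, h.trans_sum]
    by_cases hP : Pos ω n0 n
    · simp only [hP, true_and, if_true, mul_ite, mul_zero]
      rw [← Finset.sum_filter]
      have hω0 : ω n0 = p n0 := hω n0 le_rfl
      have hc0 : cross ω n0 = cross p n0 := cross_congr hω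
      have hmem : ω n ∈ S := hP.mem (S := ↑S) hn (hω0 ▸ hp) (hc0 ▸ hS)
      have hH : HasPos ω n := h.hasPos hn hv hP (by
        unfold HasPos
        rw [hc0, hω0]; exact hpos)
      have h1 : ∀ y ∈ (nb (ω n)).filter (fun y => 0 < cross ω n (ω n) y),
          trans G γ ω n y * Ψ (n + 1) (ext1 ω n y) = weight γ (cross ω n (ω n) y) *
            (Ψ n ω * (1 + η (out nb ω n (ω n))) / tot nb γ ω n) := by
        intro y hy
        obtain ⟨hy1, hy2⟩ := Finset.mem_filter.1 hy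
        have h2 : Ψ (n + 1) (ext1 ω n y) = Ψ n ω * (1 + η (out nb ω n (ω n))) := by
          have h3 : ∀ x, out nb (ext1 ω n y) (n + 1) x =
              out nb ω n x + if ω n = x then 1 else 0 := fun x => by
            rw [out_step (by simpa [cross_congr (ext1_mem ω n y)] using hy2) (by simpa using hy1)]
            simp only [out, cross_congr (ext1_mem ω n y), ext1_self]
          simp only [Ψ, h3]
          rw [← Finset.mul_prod_erase _ _ hmem, ← Finset.mul_prod_erase _ _ hmem, if_pos rfl, hπ,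
            Finset.prod_congr rfl (fun x hx => by
              rw [if_neg (Finset.ne_of_mem_erase hx).symm, add_zero])]
          ring
        rw [h2, h.trans_of_mem γ ω n hy1]
        ring
      rw [Finset.sum_congr rfl h1, ← Finset.sum_mul]
      have h2 := hη ω n hv hH
      have h3 := Finset.sum_filter_add_sum_filter_not (nb (ω n)) (fun y => 0 < cross ω n (ω n) y)
        (fun y => weight γ (cross ω n (ω n) y))
      have h4 := h.tot_pos γ ω n
      have h5 : 0 ≤ Ψ n ω := (pow_nonneg hδ.le _).trans (hΨ0 n ω)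
      set a := ∑ y ∈ (nb (ω n)).filter (fun y => 0 < cross ω n (ω n) y),
        weight γ (cross ω n (ω n) y)
      have h6 : tot nb γ ω n ≤ a * (1 + η (out nb ω n (ω n))) := by
        unfold tot
        rw [← h3]
        linarith
      have h7 : Ψ n ω ≤ a * (Ψ n ω * (1 + η (out nb ω n (ω n))) / tot nb γ ω n) := by
        rw [← mul_div_assoc, le_div_iff₀ h4]
        calc Ψ n ω * tot nb γ ω n ≤ Ψ n ω * (a * (1 + η (out nb ω n (ω n)))) :=
              mul_le_mul_of_nonneg_left h6 h5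
          _ = _ := by ring
      linarith
    · simp [hP]
  · obtain ⟨n, hn⟩ := not_forall.1 hω.1
    refine tendsto_const_nhds.congr' ?_
    filter_upwards [eventually_ge_atTop n] with m hm
    have : ¬ Pos ω n0 m := fun hh => hn (hh.mono hm)
    simp [f, this]

end Pool.Agent.MP_856411_pr

end

section

open MeasureTheory Set Filter Topology
open scoped ENNReal

namespace Pool.Agent.MP_856411_pr

theorem exists_harmonic {γ : ℝ} (hγ : 1 < γ) {a0 : ℕ} (ha0 : 0 < a0) :
    ∃ (g : ℕ → ℕ → ℝ) (L : ℝ), 0 < L ∧ (∀ a b, 0 ≤ g a b) ∧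
      (∀ a b : ℕ, 0 < a → 0 < b → (a : ℝ) ^ γ * g (a + 1) b + (b : ℝ) ^ γ * g a (b + 1) =
        ((a : ℝ) ^ γ + (b : ℝ) ^ γ) * g a b) ∧ (∀ b, g a0 b ≤ 3 / 4 * L) ∧
      ∀ a b : ℕ → ℕ, Tendsto a atTop atTop → Tendsto b atTop atTop →
        Tendsto (fun n => g (a n) (b n)) atTop (𝓝 L) := by
  let θ : ℝ := 2 * (a0 : ℝ) ^ γ
  let z : ℕ → ℝ := fun k => θ / (k : ℝ) ^ γ
  let w : ℕ → ℂ := fun k => -(Complex.I * z k)
  let P : ℕ → ℂ := fun a => ∏ k ∈ Finset.range a, (1 + w k)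
  have hPs : ∀ a, P (a + 1) = P a * (1 + w a) := fun a => Finset.prod_range_succ _ _
  have hzs : Summable z := by
    have := (Real.summable_one_div_nat_rpow.2 hγ).mul_left θ
    simpa [z, div_eq_mul_inv] using this
  have hws : Summable w := (((Complex.summable_ofReal.2 hzs).mul_left Complex.I).neg)
  have hmul := Complex.multipliable_one_add_of_summable hws
  let Q : ℂ := ∏' k, (1 + w k)
  have hlim : Tendsto P atTop (𝓝 Q) := hmul.hasProd.tendsto_prod_nat
  have hn1 : ∀ k, 1 ≤ ‖1 + w k‖ := fun k => by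
    have := Complex.re_le_norm (1 + w k)
    simpa [w] using this
  have hmono : Monotone fun a => ‖P a‖ := monotone_nat_of_le_succ fun a => by
    rw [hPs, norm_mul]
    exact le_mul_of_one_le_right (norm_nonneg _) (hn1 a)
  have hle : ∀ a, ‖P a‖ ≤ ‖Q‖ := fun a => hmono.ge_of_tendsto hlim.norm a
  have hQ : 1 ≤ ‖Q‖ := by simpa [P] using hle 0
  have hre : ∀ a b, |(P a * (starRingEnd ℂ) (P b)).re| ≤ ‖P a‖ * ‖P b‖ := fun a b => by
    have := Complex.abs_re_le_norm (P a * (starRingEnd ℂ) (P b))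
    rwa [norm_mul, Complex.norm_conj] at this
  refine ⟨fun a b => ‖Q‖ ^ 2 + (P a * (starRingEnd ℂ) (P b)).re, 2 * ‖Q‖ ^ 2, by positivity,
    fun a b => ?_, fun a b ha hb => ?_, fun b => ?_, fun a b ha hb => ?_⟩
  · have h1 := (abs_le.1 (hre a b)).1
    have h2 : ‖P a‖ * ‖P b‖ ≤ ‖Q‖ * ‖Q‖ :=
      mul_le_mul (hle a) (hle b) (norm_nonneg _) (norm_nonneg _)
    nlinarith
  · have ha' : (0 : ℝ) < (a : ℝ) ^ γ := Real.rpow_pos_of_pos (by exact_mod_cast ha) _
    have hb' : (0 : ℝ) < (b : ℝ) ^ γ := Real.rpow_pos_of_pos (by exact_mod_cast hb) _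
    have h1 : (a : ℝ) ^ γ * z a = θ := by simp only [z]; field_simp
    have h2 : (b : ℝ) ^ γ * z b = θ := by simp only [z]; field_simp
    simp only [hPs, w, map_mul, map_add, map_one, map_neg, Complex.conj_I, Complex.conj_ofReal,
      Complex.mul_re, Complex.add_re, Complex.one_re, Complex.neg_re, Complex.I_re,
      Complex.ofReal_re, Complex.I_im, Complex.ofReal_im, Complex.mul_im, Complex.add_im,
      Complex.one_im, Complex.neg_im, Complex.conj_re, Complex.conj_im]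
    linear_combination ((P a).im * (P b).re - (P a).re * (P b).im) * (h1 - h2)
  · have ha' : (0 : ℝ) < (a0 : ℝ) ^ γ := Real.rpow_pos_of_pos (by exact_mod_cast ha0) _
    have h1 : z a0 = 2 := by simp only [z, θ]; field_simp
    have h2 : 2 ≤ ‖1 + w a0‖ := by
      have := Complex.abs_im_le_norm (1 + w a0)
      simpa [w, h1] using this
    have h3 := hle (a0 + 1)
    rw [hPs, norm_mul] at h3
    have h4 : ‖P a0‖ * 2 ≤ ‖Q‖ := (mul_le_mul_of_nonneg_left h2 (norm_nonneg _)).trans h3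
    have h5 := (abs_le.1 (hre a0 b)).2
    have h6 : ‖P a0‖ * ‖P b‖ ≤ ‖Q‖ / 2 * ‖Q‖ :=
      mul_le_mul (by linarith) (hle b) (norm_nonneg _) (by positivity)
    nlinarith
  · have h1 : Tendsto (fun n => P (a n) * (starRingEnd ℂ) (P (b n))) atTop
        (𝓝 (Q * (starRingEnd ℂ) Q)) :=
      (hlim.comp ha).mul ((Complex.continuous_conj.tendsto Q).comp (hlim.comp hb))
    have h2 := (Complex.continuous_re.tendsto _).comp h1
    rw [Complex.mul_conj, Complex.ofReal_re, Complex.normSq_eq_norm_sq] at h2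
    rw [two_mul]
    exact tendsto_const_nhds.add h2

variable {V : Type} {G : SimpleGraph V} {nb : V → Finset V} {D : ℕ} {γ : ℝ} {v : V}

theorem tendsto_toNat {ω : ℕ → V} {N : ℕ} (hP : ∀ n, Pos ω N n) {x y : V}
    (hf : ∃ᶠ n in atTop, ω n = x ∧ ω (n + 1) = y) :
    Tendsto (fun n => (cross ω n x y).toNat) atTop atTop := by
  have hst : ∀ n ≥ N, 0 < cross ω n (ω n) (ω (n + 1)) := fun n hn =>
    hP (n + 1) n hn (Nat.lt_succ_self n)
  have hm : ∀ a ≥ N, ∀ b ≥ a, (cross ω a x y).toNat ≤ (cross ω b x y).toNat := by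
    intro a ha b hb
    induction b, hb using Nat.le_induction with
    | base => exact le_rfl
    | succ b hb ih => rw [toNat_step (hst b (le_trans ha hb))]; omega
  have h1 : ∀ K, ∃ n ≥ N, K ≤ (cross ω n x y).toNat := by
    intro K
    induction K with
    | zero => exact ⟨N, le_rfl, Nat.zero_le _⟩
    | succ K ih =>
      obtain ⟨n, hn, hK⟩ := ih
      obtain ⟨m, hm1, hm2⟩ := frequently_atTop.1 hf n
      refine ⟨m + 1, by omega, ?_⟩
      rw [toNat_step (hst m (le_trans hn hm1)), if_pos hm2]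
      have := hm n hn m hm1
      omega
  refine tendsto_atTop_atTop.2 fun K => ?_
  obtain ⟨n, hn, hK⟩ := h1 K
  exact ⟨n, fun m hm' => hK.trans (hm n hn m hm')⟩

theorem pos_of_frequently {ω : ℕ → V} {N : ℕ} (hP : ∀ n, Pos ω N n) {x y : V}
    (hf : ∃ᶠ n in atTop, ω n = x ∧ ω (n + 1) = y) {n : ℕ} (hn : N ≤ n) : 0 < cross ω n x y := by
  obtain ⟨m, hm1, rfl, rfl⟩ := frequently_atTop.1 hf N
  rw [(hP n).sign hn, ← (hP m).sign hm1]
  exact hP (m + 1) m hm1 (Nat.lt_succ_self m)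

variable [MeasurableSpace V] [DiscreteMeasurableSpace V] [Countable V]

theorem measurableSet_freq (x y : V) :
    MeasurableSet {ω : ℕ → V | ∃ᶠ n in atTop, ω n = x ∧ ω (n + 1) = y} := by
  simp only [frequently_atTop, setOf_forall, setOf_exists]
  refine MeasurableSet.iInter fun a => MeasurableSet.iUnion fun n =>
    measurableSet_of_adapted (n + 1) _ fun ω hω ω' h => ?_
  simp only [mem_setOf_eq] at hω ⊢
  rw [h n (Nat.le_succ n), h (n + 1) le_rfl]
  exact hω

theorem Ctx.stage2 (h : Ctx G nb D) (hγ : 1 < γ) {μ : Measure (ℕ → V)} (hμ : IsWalkLaw G γ v μ)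
    (N : ℕ) (x : V) {y z : V} (hyz : y ≠ z) :
    μ ({ω | ∀ n, Pos ω N n} ∩ ({ω | ∃ᶠ n in atTop, ω n = x ∧ ω (n + 1) = y} ∩
      {ω | ∃ᶠ n in atTop, ω n = x ∧ ω (n + 1) = z})) = 0 := by
  classical
  have := hμ.1
  have hAm := (measurableSet_pos (V := V) N).inter
    ((measurableSet_freq x y).inter (measurableSet_freq x z))
  refine null_of_density μ hAm (θ := ENNReal.ofReal (3 / 4))
    (ENNReal.ofReal_lt_one.2 (by norm_num)) fun p hp M => ⟨max M N, le_max_left _ _, ?_⟩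
  set n0 := max M N
  have hN : N ≤ n0 := le_max_right _ _
  have hy0 : 0 < cross p n0 x y := pos_of_frequently hp.1 hp.2.1 hN
  have hz0 : 0 < cross p n0 x z := pos_of_frequently hp.1 hp.2.2 hN
  obtain ⟨g, L, hL, hg0, hharm, hg1, hlim⟩ :=
    exists_harmonic hγ (a0 := (cross p n0 x y).toNat) (by omega)
  let f : ℕ → (ℕ → V) → ℝ := fun n ω =>
    if Pos ω n0 n then g (cross ω n x y).toNat (cross ω n x z).toNat else 0
  have key := hμ.step.supermart (trans_congr G γ) (h.trans_nonneg γ) (fun ω n => nb (ω n))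
    (fun ω n _ hx => h.trans_of_not_mem γ ω n hx) f (fun n ω => by
      simp only [f]
      split_ifs
      · exact hg0 _ _
      · exact le_rfl) (fun n ω ω' hω => by
      have h1 : Pos ω' n0 n ↔ Pos ω n0 n := ⟨fun hh => hh.congr (mem_cyl_symm hω),
        fun hh => hh.congr hω⟩
      simp only [f, h1, cross_congr hω]) n0 p (fun n hn ω hω hne => ?_) hAm (L := L)
    (fun ω hω => ?_)
  · have h0 : Pos p n0 n0 := fun k h1 h2 => absurd h1 (not_le.2 h2)
    simp only [f, h0, if_true] at key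
    have h1 := key.trans (mul_le_mul_left (ENNReal.ofReal_le_ofReal (hg1 _)) _)
    rw [mul_comm (3 / 4 : ℝ), ENNReal.ofReal_mul hL.le, mul_assoc] at h1
    exact (ENNReal.mul_le_mul_iff_right (by simpa using hL) ENNReal.ofReal_ne_top).1 h1
  · have hv := hμ.valid hne
    by_cases hP : Pos ω n0 n
    · have hy : 0 < cross ω n x y := by rw [hP.sign hn, cross_congr hω]; exact hy0
      have hz : 0 < cross ω n x z := by rw [hP.sign hn, cross_congr hω]; exact hz0
      set a := (cross ω n x y).toNat with ha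
      set b := (cross ω n x z).toNat with hb
      let t : V → ℝ := fun w => g (a + if ω n = x ∧ w = y then 1 else 0)
        (b + if ω n = x ∧ w = z then 1 else 0)
      have h1 : ∀ w, f (n + 1) (ext1 ω n w) ≤ t w := fun w => by
        simp only [f, pos_ext1 hn]
        split_ifs with h2
        · have h3 : 0 < cross (ext1 ω n w) n (ext1 ω n w n) (ext1 ω n w (n + 1)) := by
            simpa [cross_congr (ext1_mem ω n w)] using h2.2
          rw [toNat_step h3, toNat_step h3, cross_congr (ext1_mem ω n w), ext1_self, ext1_succ]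
        · exact hg0 _ _
      refine (Finset.sum_le_sum fun w _ =>
        mul_le_mul_of_nonneg_left (h1 w) (h.trans_nonneg γ ω n w)).trans ?_
      simp only [f, hP, if_true]
      rw [← ha, ← hb]
      by_cases hx : ω n = x
      · subst hx
        have hym := h.mem_of_pos hv hy
        have hzm := h.mem_of_pos hv hz
        have hzm' : z ∈ (nb (ω n)).erase y := Finset.mem_erase.2 ⟨hyz.symm, hzm⟩
        have h2 := h.trans_sum γ ω n
        rw [← Finset.add_sum_erase _ _ hym, ← Finset.add_sum_erase _ _ hzm'] at h2 ⊢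
        have h3 : ∑ w ∈ ((nb (ω n)).erase y).erase z, trans G γ ω n w * t w =
            (∑ w ∈ ((nb (ω n)).erase y).erase z, trans G γ ω n w) * g a b := by
          rw [Finset.sum_mul]
          refine Finset.sum_congr rfl fun w hw => ?_
          have h4 := Finset.ne_of_mem_erase hw
          have h5 := Finset.ne_of_mem_erase (Finset.mem_of_mem_erase hw)
          simp [t, h4, h5]
        have hay : ((a : ℕ) : ℝ) = (cross ω n (ω n) y : ℝ) := by
          have : ((a : ℕ) : ℤ) = cross ω n (ω n) y := by omega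
          exact_mod_cast this
        have hbz : ((b : ℕ) : ℝ) = (cross ω n (ω n) z : ℝ) := by
          have : ((b : ℕ) : ℤ) = cross ω n (ω n) z := by omega
          exact_mod_cast this
        have h4 : trans G γ ω n y * t y + trans G γ ω n z * t z =
            (trans G γ ω n y + trans G γ ω n z) * g a b := by
          have h5 := hharm a b (by omega) (by omega)
          rw [h.trans_of_mem γ ω n hym, h.trans_of_mem γ ω n hzm, weight_of_pos γ hy,
            weight_of_pos γ hz, ← hay, ← hbz]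
          simp only [t, true_and, if_true, hyz, hyz.symm, if_false, add_zero]
          have h6 := h.tot_pos γ ω n
          field_simp
          linarith
        rw [h3, ← add_assoc, h4, ← add_mul, add_assoc, h2, one_mul]
      · simp only [t, hx, false_and, if_false, add_zero]
        rw [← Finset.sum_mul, h.trans_sum, one_mul]
    · simp [f, pos_ext1 hn, hP]
  · have h1 : ∀ n, Pos ω n0 n := fun n k h1 h2 => hω.1.1 n k (hN.trans h1) h2
    simp only [f, h1, if_true]
    exact hlim _ _ (tendsto_toNat hω.1.1 hω.1.2.1) (tendsto_toNat hω.1.1 hω.1.2.2)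

end Pool.Agent.MP_856411_pr

end

section

open MeasureTheory Set Filter Topology
open scoped ENNReal

namespace Pool.Agent.MP_856411_pr

variable {V : Type} {G : SimpleGraph V} {nb : V → Finset V} {D : ℕ} {γ : ℝ} {v : V}

theorem trapped_countable [Countable V] (G : SimpleGraph V) : {ω | Trapped G ω}.Countable := by
  let F : (Σ m : ℕ, Σ N : ℕ, (Fin N → V) × (ZMod (m + 1) → V)) → ℕ → V := fun c k =>
    if h : k < c.2.1 then c.2.2.1 ⟨k, h⟩ else c.2.2.2 ((k - c.2.1 : ℕ) : ZMod (c.1 + 1))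
  refine (countable_range F).mono ?_
  rintro ω ⟨m, hm, u, -, -, N, i, h⟩
  obtain ⟨m, rfl⟩ : ∃ m', m = m' + 1 := ⟨m - 1, by omega⟩
  refine ⟨⟨m, N, fun k => ω k, fun j => u (i + j)⟩, funext fun k => ?_⟩
  simp only [F]
  split_ifs with hk
  · rfl
  · rw [← h]; congr 1; omega

theorem not_summable_of_lower {a : ℕ → ℝ} (ha : ∀ n, 0 ≤ a n) {A m : ℕ} (hm : 0 < m) {c : ℝ}
    (hc : 0 < c) (h : ∀ t : ℕ, c / (((A + m * t : ℕ) : ℝ) + 1) ≤ a (A + m * t)) :
    ¬ Summable a := by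
  intro hs
  have h1 : Summable fun t : ℕ => a (A + m * t) :=
    hs.comp_injective (i := fun t : ℕ => A + m * t) fun s t hst =>
      Nat.eq_of_mul_eq_mul_left hm (Nat.add_left_cancel hst)
  have h2 : Summable fun t : ℕ => c / ((A : ℝ) + 1 + m) * (1 / ((t : ℝ) + 1)) := by
    refine Summable.of_nonneg_of_le (fun t => by positivity) (fun t => le_trans ?_ (h t)) h1
    rw [mul_one_div, div_div]
    refine div_le_div_of_nonneg_left hc.le (by positivity) ?_
    push_cast
    have : (0 : ℝ) ≤ t := Nat.cast_nonneg t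
    have : (0 : ℝ) ≤ A := Nat.cast_nonneg A
    have : (0 : ℝ) ≤ m := Nat.cast_nonneg m
    nlinarith [mul_nonneg ‹(0 : ℝ) ≤ A› ‹(0 : ℝ) ≤ t›]
  have h3 : Summable fun t : ℕ => 1 / ((t : ℝ) + 1) :=
    (summable_mul_left_iff (by positivity)).1 h2
  have h4 : Summable fun t : ℕ => 1 / (t : ℝ) := by
    rw [← summable_nat_add_iff 1]
    simpa using h3
  exact Real.not_summable_one_div_natCast h4

theorem Ctx.one_sub_ge (h : Ctx G nb D) (hγ : 0 < γ) (ω : ℕ → V) (n : ℕ) {x z : V}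
    (hz : G.Adj (ω n) z) (hxz : x ≠ z) :
    weight γ (cross ω n (ω n) z) / (D * ((n : ℝ) + 1) ^ γ) ≤ 1 - trans G γ ω n x := by
  have h1 := h.trans_add_le γ ω n hxz
  rw [h.trans_of_mem γ ω n ((h.mem _ _).2 hz)] at h1
  refine le_trans ?_ (le_sub_iff_add_le'.2 h1)
  refine div_le_div_of_nonneg_left (weight_pos _ _).le (h.tot_pos γ ω n) ?_
  calc tot nb γ ω n ≤ ∑ _z ∈ nb (ω n), ((n : ℝ) + 1) ^ γ :=
        Finset.sum_le_sum fun z _ => weight_le hγ (abs_cross_le _ _ _ _)
    _ = (nb (ω n)).card * ((n : ℝ) + 1) ^ γ := by simp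
    _ ≤ D * ((n : ℝ) + 1) ^ γ := by
        refine mul_le_mul_of_nonneg_right (by exact_mod_cast h.card _) (by positivity)

theorem two_ne_zero_zmod {m : ℕ} (hm : 3 ≤ m) : (2 : ZMod m) ≠ 0 := by
  intro h
  have h1 : ((2 : ℕ) : ZMod m) = 0 := by exact_mod_cast h
  have := Nat.le_of_dvd two_pos ((ZMod.natCast_eq_zero_iff 2 m).1 h1)
  omega

theorem succ_ne_pred_zmod {m : ℕ} (hm : 3 ≤ m) (i : ZMod m) : i + 1 ≠ i - 1 := by
  intro h
  refine two_ne_zero_zmod hm ?_
  linear_combination h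

theorem Ctx.not_summable_half (h : Ctx G nb D) (hγ : 0 < γ) (hγ' : γ ≤ 1 / 2) {ω : ℕ → V}
    (hω : Trapped G ω) : ¬ Summable fun n => 1 - trans G γ ω n (ω (n + 1)) := by
  obtain ⟨m, hm, u, hu, hadj, N, i, hN⟩ := hω
  have hD : (0 : ℝ) < D := by exact_mod_cast h.one_le (ω 0)
  refine not_summable_of_lower (fun n => sub_nonneg.2 (h.trans_le_one γ ω n _)) (A := N) one_pos
    (c := 1 / D) (by positivity) fun t => ?_
  rw [one_mul]
  have h1 : ω (N + t + 1) = u (i + t + 1) := by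
    rw [add_assoc, hN]; push_cast; rw [add_assoc]
  have h2 : G.Adj (ω (N + t)) (u (i + t - 1)) := by
    rw [hN]
    simpa using (hadj (i + t - 1)).symm
  refine le_trans ?_ (h.one_sub_ge hγ ω (N + t) h2
    (h1 ▸ fun he => succ_ne_pred_zmod hm _ (hu he)))
  set r : ℝ := ((N + t : ℕ) : ℝ) + 1 with hr
  have hr1 : 1 ≤ r := by rw [hr]; linarith [Nat.cast_nonneg (α := ℝ) (N + t)]
  have hr0 : 0 < r := by linarith
  refine le_trans ?_ (div_le_div_of_nonneg_right (le_weight hγ (abs_cross_le _ _ _ _))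
    (by positivity))
  rw [← hr, Real.rpow_neg hr0.le, div_div, div_le_div_iff₀ (by positivity) (by positivity)]
  have h3 : r ^ γ * r ^ γ ≤ r := by
    rw [← Real.rpow_add hr0]
    calc r ^ (γ + γ) ≤ r ^ (1 : ℝ) := Real.rpow_le_rpow_of_exponent_le hr1 (by linarith)
      _ = r := Real.rpow_one r
  have h4 : 0 < r ^ γ := Real.rpow_pos_of_pos hr0 _
  rw [one_mul, ← div_eq_inv_mul, le_div_iff₀ h4, mul_assoc]
  exact mul_le_mul_of_nonneg_left h3 hD.le

theorem exists_exit (hG : G.Preconnected) (hreg : ¬ ∀ x, (G.neighborSet x).ncard = 2) {m : ℕ}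
    (hm : 3 ≤ m) {u : ZMod m → V} (hu : Function.Injective u)
    (hadj : ∀ i, G.Adj (u i) (u (i + 1))) :
    ∃ j z, G.Adj (u j) z ∧ z ≠ u (j + 1) ∧ z ≠ u (j - 1) := by
  by_contra hc
  push Not at hc
  have h1 : ∀ x y, G.Walk x y → x ∈ range u → y ∈ range u := by
    intro x y w
    induction w with
    | nil => exact id
    | @cons a b c hxy w ih =>
      rintro ⟨j, rfl⟩
      refine ih ?_
      by_cases h : b = u (j + 1)
      · exact ⟨_, h.symm⟩
      · exact ⟨_, (hc j _ hxy h).symm⟩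
  refine hreg fun x => ?_
  obtain ⟨j, rfl⟩ := h1 (u 0) x (hG (u 0) x).some ⟨0, rfl⟩
  have h2 : G.neighborSet (u j) = {u (j + 1), u (j - 1)} := by
    ext z
    simp only [SimpleGraph.mem_neighborSet, mem_insert_iff, mem_singleton_iff]
    constructor
    · intro hz
      by_cases h : z = u (j + 1)
      · exact Or.inl h
      · exact Or.inr (hc j z hz h)
    · rintro (rfl | rfl)
      · exact hadj j
      · simpa using (hadj (j - 1)).symm
  rw [h2, ncard_pair fun he => succ_ne_pred_zmod hm _ (hu he)]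

theorem Ctx.not_summable_one (h : Ctx G nb D) (hG : G.Preconnected)
    (hreg : ¬ ∀ x, (G.neighborSet x).ncard = 2) (hγ : 0 < γ) (hγ' : γ ≤ 1) {ω : ℕ → V}
    (hω : Trapped G ω) : ¬ Summable fun n => 1 - trans G γ ω n (ω (n + 1)) := by
  obtain ⟨m, hm, u, hu, hadj, N, i, hN⟩ := hω
  obtain ⟨j, z, hz, hz1, hz2⟩ := exists_exit hG hreg hm hu hadj
  haveI : NeZero m := ⟨by omega⟩
  have hD : (0 : ℝ) < D := by exact_mod_cast h.one_le (ω 0)
  have hstep : ∀ k : ℕ, ω (N + k + 1) = u (i + k + 1) := fun k => by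
    rw [add_assoc, hN]; push_cast; rw [add_assoc]
  have hfro : ∀ k : ℕ, cross ω (N + k) (u j) z = cross ω N (u j) z := by
    intro k
    induction k with
    | zero => rfl
    | succ k ih =>
      rw [← add_assoc, cross_succ_other, ih]
      · rintro ⟨h1, h2⟩
        rw [hN] at h1
        rw [hstep, hu h1] at h2
        exact hz1 h2.symm
      · rintro ⟨h1, h2⟩
        rw [hstep] at h2
        rw [hN] at h1
        refine hz2 ?_
        rw [← h1, ← hu h2]
        congr 1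
        ring
  refine not_summable_of_lower (fun n => sub_nonneg.2 (h.trans_le_one γ ω n _))
    (A := N + (j - i).val) (m := m) (by omega)
    (c := weight γ (cross ω N (u j) z) / D) (div_pos (weight_pos _ _) hD) fun t => ?_
  have h0 : i + (((j - i).val + m * t : ℕ) : ZMod m) = j := by
    push_cast
    simp
  have h1 : ω (N + (j - i).val + m * t) = u j := by rw [add_assoc, hN, h0]
  have h2 : ω (N + (j - i).val + m * t + 1) = u (j + 1) := by rw [add_assoc N, hstep, h0]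
  refine le_trans ?_ (h.one_sub_ge hγ ω _ (z := z) (h1 ▸ hz) (h2 ▸ hz1.symm))
  rw [h1, add_assoc N, hfro, div_div]
  refine div_le_div_of_nonneg_left (weight_pos _ _).le (by positivity) ?_
  refine mul_le_mul_of_nonneg_left ?_ hD.le
  set r : ℝ := ((N + ((j - i).val + m * t) : ℕ) : ℝ) + 1 with hr
  have hr1 : 1 ≤ r := by
    rw [hr]; linarith [Nat.cast_nonneg (α := ℝ) (N + ((j - i).val + m * t))]
  calc r ^ γ ≤ r ^ (1 : ℝ) := Real.rpow_le_rpow_of_exponent_le hr1 hγ'
    _ = r := Real.rpow_one r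

variable [MeasurableSpace V] [DiscreteMeasurableSpace V] [Countable V]

theorem Ctx.ae_not_trapped (h : Ctx G nb D) {μ : Measure (ℕ → V)} (hμ : IsWalkLaw G γ v μ)
    (hs : ∀ ω, Trapped G ω → ¬ Summable fun n => 1 - trans G γ ω n (ω (n + 1))) :
    ∀ᵐ ω ∂μ, ¬ Trapped G ω := by
  have := hμ.1
  rw [ae_iff]
  simp only [not_not]
  rw [← biUnion_of_singleton {ω | Trapped G ω}, measure_biUnion_null_iff (trapped_countable G)]
  exact fun ω hω => hμ.step.singleton_null ω (fun n => h.trans_le_one γ ω n _) (hs ω hω)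

end Pool.Agent.MP_856411_pr

end

section

open MeasureTheory Set Filter Topology
open scoped ENNReal

namespace Pool.Agent.MP_856411_pr

variable {V : Type} {G : SimpleGraph V} {nb : V → Finset V} {D : ℕ} {γ : ℝ} {v : V}

/-- a directed circuit -/
structure Circ (G : SimpleGraph V) (m : ℕ) (u : ZMod m → V) : Prop where
  three : 3 ≤ m
  inj : Function.Injective u
  adj : ∀ i, G.Adj (u i) (u (i + 1))

/-- the path `ω` up to time `n` continued by `π` -/
def splice (ω : ℕ → V) (n : ℕ) (π : ℕ → V) : ℕ → V := fun k => if k ≤ n then ω k else π (k - n)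

theorem splice_mem (ω : ℕ → V) (n : ℕ) (π : ℕ → V) : splice ω n π ∈ cyl n ω :=
  fun k hk => by simp [splice, hk]

theorem splice_add {ω : ℕ → V} {n : ℕ} {π : ℕ → V} (h : π 0 = ω n) (j : ℕ) :
    splice ω n π (n + j) = π j := by
  rcases Nat.eq_zero_or_pos j with rfl | hj
  · simp [splice, h]
  · have : ¬ n + j ≤ n := by omega
    simp [splice, this]

theorem Valid.splice {ω : ℕ → V} {n : ℕ} {π : ℕ → V} (hv : Valid G v ω n) (h : π 0 = ω n)
    (ha : ∀ j, G.Adj (π j) (π (j + 1))) (k : ℕ) : Valid G v (splice ω n π) k := by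
  have h1 := hv.congr (splice_mem ω n π)
  refine ⟨h1.1, fun i _ => ?_⟩
  rcases lt_or_ge i n with hi | hi
  · exact h1.2 i hi
  · obtain ⟨j, rfl⟩ := Nat.exists_eq_add_of_le hi
    rw [add_assoc, splice_add h, splice_add h]
    exact ha j

theorem Circ.no_back {m : ℕ} {u : ZMod m → V} (h : Circ G m u) (j : ZMod m) :
    ¬ (u j = u 1 ∧ u (j + 1) = u 0) := by
  rintro ⟨h1, h2⟩
  have h3 := h.inj h2
  rw [h.inj h1] at h3
  exact two_ne_zero_zmod h.three (by linear_combination h3)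

theorem exists_plan (hG : G.Preconnected) {m : ℕ} {u : ZMod m → V} (hu : Circ G m u) (x : V) :
    ∃ (π : ℕ → V) (ℓ : ℕ), π 0 = x ∧ (∀ j, G.Adj (π j) (π (j + 1))) ∧
      ∀ j : ℕ, π (ℓ + j) = u j := by
  obtain ⟨w⟩ := hG x (u 0)
  have h0 : (fun j : ℕ => u j) 0 = w.getVert w.length := by simp
  refine ⟨splice w.getVert w.length fun j : ℕ => u j, w.length, by simp [splice], fun j => ?_,
    splice_add h0⟩
  refine (Valid.splice (G := G) (v := x) ⟨w.getVert_zero, fun k hk => w.adj_getVert_succ hk⟩ h0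
    (fun j => ?_) (j + 1)).2 j (Nat.lt_succ_self j)
  push_cast
  exact hu.adj j

theorem Ctx.hasPos_of_loop (h : Ctx G nb D) {m : ℕ} {u : ZMod m → V} (hu : Circ G m u)
    {ω : ℕ → V} (hv : ∀ k, Valid G v ω k) {t : ℕ} (ht : ∀ j : ℕ, ω (t + j) = u j) :
    ∃ k, t ≤ k ∧ k ≤ t + 2 * m ∧ HasPos ω k := by
  have hm := hu.three
  by_cases h0 : HasPos ω t
  · exact ⟨t, le_rfl, by omega, h0⟩
  refine ⟨t + 2 * m, by omega, le_rfl, u 1, ?_⟩
  have e0 : ω t = u 0 := by simpa using ht 0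
  have e1 : ω (t + 1) = u 1 := by simpa using ht 1
  have e2 : ω (t + m) = u 0 := by simpa using ht m
  have e3 : ω (t + m + 1) = u 1 := by simpa [add_assoc] using ht (m + 1)
  have e4 : ω (t + 2 * m) = u 0 := by simpa using ht (2 * m)
  have hadj : G.Adj (u 0) (u 1) := by simpa using hu.adj 0
  simp only [HasPos, not_exists, not_lt] at h0
  have h1 := h.ge_neg_one (hv t) h0 (y := u 1) ((h.mem _ _).2 (e0 ▸ hadj))
  have hb : ∀ a b, t ≤ a → a ≤ b → cross ω a (u 0) (u 1) ≤ cross ω b (u 0) (u 1) :=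
    fun a b ha hab => cross_mono hab fun k hk _ => by
      obtain ⟨j, rfl⟩ := Nat.exists_eq_add_of_le (ha.trans hk)
      rw [add_assoc, ht, ht]
      push_cast
      exact hu.no_back j
  have h2 := cross_succ_fwd (ω := ω) (n := t) (by rw [e0, e1]; exact hadj.ne)
  have h3 := cross_succ_fwd (ω := ω) (n := t + m) (by rw [e2, e3]; exact hadj.ne)
  rw [e0, e1] at h2
  rw [e2, e3] at h3
  rw [e0] at h1
  rw [e4]
  have h4 := hb (t + 1) (t + m) (by omega) (by omega)
  have h5 := hb (t + m + 1) (t + 2 * m) (by omega) (by omega)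
  omega

theorem trapped_of_unique {ω : ℕ → V} (hv : ∀ k, G.Adj (ω k) (ω (k + 1)))
    (hfin : (range ω).Finite) {N : ℕ} (hP : ∀ n, Pos ω N n)
    (huniq : ∀ x y z, (∃ᶠ n in atTop, ω n = x ∧ ω (n + 1) = y) →
      (∃ᶠ n in atTop, ω n = x ∧ ω (n + 1) = z) → y = z) : Trapped G ω := by
  classical
  have h1 : ∀ᶠ n in atTop, ∃ᶠ k in atTop, ω k = ω n ∧ ω (k + 1) = ω (n + 1) := by
    have h2 : ∀ᶠ n in atTop, ∀ c ∈ range ω ×ˢ range ω,
        (ω n = c.1 ∧ ω (n + 1) = c.2) → ∃ᶠ k in atTop, ω k = c.1 ∧ ω (k + 1) = c.2 := by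
      rw [eventually_all_finite (hfin.prod hfin)]
      intro c _
      by_cases hc : ∃ᶠ k in atTop, ω k = c.1 ∧ ω (k + 1) = c.2
      · exact Eventually.of_forall fun _ _ => hc
      · exact (not_frequently.1 hc).mono fun n hn hn' => (hn hn').elim
    exact h2.mono fun n hn => hn (ω n, ω (n + 1)) ⟨⟨_, rfl⟩, _, rfl⟩ ⟨rfl, rfl⟩
  obtain ⟨N1, hN1⟩ := eventually_atTop.1 (h1.and (eventually_ge_atTop N))
  let s : V → V := fun x =>
    if h : ∃ y, ∃ᶠ k in atTop, ω k = x ∧ ω (k + 1) = y then h.choose else x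
  have hs : ∀ n ≥ N1, ω (n + 1) = s (ω n) := fun n hn => by
    have h2 : ∃ y, ∃ᶠ k in atTop, ω k = ω n ∧ ω (k + 1) = y := ⟨_, (hN1 n hn).1⟩
    simp only [s, h2, dif_pos]
    exact huniq _ _ _ (hN1 n hn).1 h2.choose_spec
  have hit : ∀ j, ω (N1 + j) = s^[j] (ω N1) := by
    intro j
    induction j with
    | zero => rfl
    | succ j ih => rw [← add_assoc, hs _ (by omega), ih, Function.iterate_succ_apply']
  have hper : ω N1 ∈ Function.periodicPts s := by
    obtain ⟨k, hk, hk2, -⟩ := frequently_atTop.1 (hN1 N1 le_rfl).1 (N1 + 1)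
    refine ⟨k - N1, by omega, ?_⟩
    rw [Function.IsPeriodicPt, Function.IsFixedPt, ← hit, ← hk2]
    congr 1
    omega
  set m := Function.minimalPeriod s (ω N1) with hm
  have hm0 : 0 < m := Function.minimalPeriod_pos_of_mem_periodicPts hper
  have hret : ω (N1 + m) = ω N1 := by rw [hit]; exact Function.iterate_minimalPeriod
  have hm1 : m ≠ 1 := fun h => (hv N1).ne (by rw [h] at hret; exact hret.symm)
  have hN : N ≤ N1 := (hN1 N1 le_rfl).2
  have hm2 : m ≠ 2 := fun h => by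
    rw [h] at hret
    have h2 := hP (N1 + 1) N1 hN (by omega)
    have h3 := hP (N1 + 2) (N1 + 1) (by omega) (by omega)
    rw [show N1 + 1 + 1 = N1 + 2 from rfl, hret, cross_anti, cross_succ_fwd (hv N1).ne] at h3
    omega
  haveI : NeZero m := ⟨hm0.ne'⟩
  have hu : ∀ j : ℕ, s^[(j : ZMod m).val] (ω N1) = ω (N1 + j) := fun j => by
    rw [ZMod.val_natCast, hit]
    exact Function.iterate_mod_minimalPeriod_eq
  refine ⟨m, by omega, fun i => s^[i.val] (ω N1), fun i j hij => ?_, fun i => ?_, N1, 0,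
    fun j => ?_⟩
  · exact ZMod.val_injective m (Function.iterate_injOn_Iio_minimalPeriod (ZMod.val_lt i)
      (ZMod.val_lt j) hij)
  · have h2 : i + 1 = ((i.val + 1 : ℕ) : ZMod m) := by simp
    beta_reduce
    rw [h2, hu, ← hit]
    exact hv _
  · rw [zero_add]
    exact (hu j).symm

variable [MeasurableSpace V] [DiscreteMeasurableSpace V] [Countable V]

theorem measurableSet_range_sub (S : Set V) : MeasurableSet {ω : ℕ → V | ∀ k, ω k ∈ S} := by
  rw [setOf_forall]
  exact MeasurableSet.iInter fun k => measurableSet_of_adapted k _ fun ω hω ω' h => by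
    simp only [mem_setOf_eq] at hω ⊢
    rw [h k le_rfl]; exact hω

theorem measurableSet_valid : MeasurableSet {ω : ℕ → V | ∀ k, Valid G v ω k} := by
  rw [setOf_forall]
  exact MeasurableSet.iInter fun k => measurableSet_of_adapted k _ fun ω hω ω' h => hω.congr h

theorem HasPos.congr {ω ω' : ℕ → V} {n : ℕ} (h : HasPos ω n) (h' : ω' ∈ cyl n ω) :
    HasPos ω' n := by
  unfold HasPos
  rw [cross_congr h', h' n le_rfl]
  exact h

theorem measurableSet_hasPos (n : ℕ) : MeasurableSet {ω : ℕ → V | HasPos ω n} :=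
  measurableSet_of_adapted n _ fun _ hω _ h => HasPos.congr hω h

theorem sub_bound (μ : Measure (ℕ → V)) [IsFiniteMeasure μ] {A C C' : Set (ℕ → V)}
    (hC' : MeasurableSet C') (hs : C' ⊆ C) {ρ θ : ℝ} (hρ : 0 ≤ ρ) (hθ : 0 ≤ θ) (hθ1 : θ ≤ 1)
    (h1 : ENNReal.ofReal ρ * μ C ≤ μ C') (h2 : μ (A ∩ C') ≤ ENNReal.ofReal (1 - θ) * μ C') :
    μ (A ∩ C) ≤ ENNReal.ofReal (1 - ρ * θ) * μ C := by
  have e1 : μ (A ∩ C) ≤ μ (A ∩ C') + μ (C \ C') := by
    refine le_trans (measure_mono ?_) (measure_union_le _ _)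
    intro ω hω
    by_cases h : ω ∈ C'
    · exact Or.inl ⟨hω.1, h⟩
    · exact Or.inr ⟨hω.2, h⟩
  have e2 : μ C' + μ (C \ C') = μ C := by
    rw [← measure_inter_add_diff C hC', inter_eq_right.2 hs]
  obtain ⟨a, ha0, ha⟩ : ∃ a : ℝ, 0 ≤ a ∧ μ C' = ENNReal.ofReal a :=
    ⟨(μ C').toReal, ENNReal.toReal_nonneg, (ENNReal.ofReal_toReal (measure_ne_top _ _)).symm⟩
  obtain ⟨b, hb0, hb⟩ : ∃ b : ℝ, 0 ≤ b ∧ μ (C \ C') = ENNReal.ofReal b :=
    ⟨(μ (C \ C')).toReal, ENNReal.toReal_nonneg,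
      (ENNReal.ofReal_toReal (measure_ne_top _ _)).symm⟩
  rw [← e2, ha, hb, ← ENNReal.ofReal_add ha0 hb0] at h1 ⊢
  rw [ha] at h2
  rw [hb] at e1
  refine (e1.trans (add_le_add_left h2 _)).trans ?_
  rw [← ENNReal.ofReal_mul hρ, ENNReal.ofReal_le_ofReal_iff ha0] at h1
  rw [← ENNReal.ofReal_mul (by linarith), ← ENNReal.ofReal_add (mul_nonneg (by linarith) ha0) hb0,
    mul_comm (ENNReal.ofReal (1 - ρ * θ)), ← ENNReal.ofReal_mul (add_nonneg ha0 hb0)]
  refine ENNReal.ofReal_le_ofReal ?_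
  have := mul_le_mul_of_nonneg_right h1 hθ
  nlinarith

theorem Ctx.stage0 (h : Ctx G nb D) (hγ : 0 < γ) (hG : G.Preconnected) {m : ℕ} {u : ZMod m → V}
    (hu : Circ G m u) {μ : Measure (ℕ → V)} (hμ : IsWalkLaw G γ v μ) (S : Finset V) (N : ℕ) :
    μ ({ω | ∀ k, Valid G v ω k} ∩ ({ω | ∀ k, ω k ∈ (S : Set V)} ∩
      {ω | ∀ n ≥ N, ¬ HasPos ω n})) = 0 := by
  classical
  have := hμ.1
  choose π ℓ hπ0 hπa hπu using exists_plan hG hu
  have hD : (1 : ℝ) ≤ D := by exact_mod_cast h.one_le v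
  have hρ : (0 : ℝ) < 1 / D := by positivity
  have hρ1 : (1 : ℝ) / D ≤ 1 := (div_le_one (by positivity)).2 hD
  refine null_of_density μ (measurableSet_valid.inter ((measurableSet_range_sub _).inter ?_))
    (θ := ENNReal.ofReal (1 - (1 / D) ^ (S.sup ℓ + 2 * m) * 1))
    (ENNReal.ofReal_lt_one.2 (by
      have := pow_pos hρ (S.sup ℓ + 2 * m)
      linarith)) fun p hp M => ⟨max M N, le_max_left _ _, ?_⟩
  · simp only [setOf_forall]
    exact MeasurableSet.iInter fun n => MeasurableSet.iInter fun _ =>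
      (measurableSet_hasPos n).compl
  set n := max M N
  let ω := splice p n (π (p n))
  have hv : ∀ k, Valid G v ω k := (hp.1 n).splice (hπ0 _) (hπa _)
  obtain ⟨k, hk1, hk2, hk3⟩ := h.hasPos_of_loop hu hv (t := n + ℓ (p n)) fun j => by
    simp only [ω]
    rw [add_assoc, splice_add (hπ0 _), hπu]
  have hex : ∃ j, HasPos ω (n + j) := ⟨k - n, by rwa [show n + (k - n) = k by omega]⟩
  have hj : Nat.find hex ≤ S.sup ℓ + 2 * m := by
    have h1 : Nat.find hex ≤ k - n := Nat.find_min' hex (by rwa [show n + (k - n) = k by omega])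
    have h2 : ℓ (p n) ≤ S.sup ℓ := Finset.le_sup (hp.2.1 n)
    omega
  have h1 := hμ.step.lower ω n hρ.le (Nat.find hex) fun i hi1 hi2 => by
    refine h.trans_ge hγ (hv i) ?_ ((hv (i + 1)).2 i (Nat.lt_succ_self i))
    have := Nat.find_min hex (m := i - n) (by omega)
    rw [show n + (i - n) = i by omega] at this
    simpa [HasPos] using this
  rw [cyl_eq_of_mem (splice_mem p n _)] at h1
  refine sub_bound μ (measurableSet_cyl (n + Nat.find hex) ω)
    ((cyl_anti (Nat.le_add_right _ _) ω).trans (cyl_eq_of_mem (splice_mem p n _)).subset)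
    (pow_pos hρ _).le zero_le_one le_rfl (le_trans (mul_le_mul_left (ENNReal.ofReal_le_ofReal
      (pow_le_pow_of_le_one hρ.le hρ1 hj)) _) h1) ?_
  have h2 : ({ω | ∀ k, Valid G v ω k} ∩ ({ω | ∀ k, ω k ∈ (S : Set V)} ∩
      {ω | ∀ n ≥ N, ¬ HasPos ω n})) ∩ cyl (n + Nat.find hex) ω = ∅ := by
    refine eq_empty_of_forall_notMem fun z hz => hz.1.2.2 (n + Nat.find hex) ?_
      ((Nat.find_spec hex).congr hz.2)
    exact (le_max_right M N).trans (Nat.le_add_right _ _)
  rw [h2]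
  simp

theorem Ctx.ae_eventually_pos (h : Ctx G nb D) (hγ : 0 < γ) (hG : G.Preconnected) {m : ℕ}
    {u : ZMod m → V} (hu : Circ G m u) {η : ℕ → ℝ} (h0 : ∀ j, 0 ≤ η j) (hs : Summable η)
    (hη : Dom G nb γ v η) {μ : Measure (ℕ → V)} (hμ : IsWalkLaw G γ v μ) :
    ∀ᵐ ω ∂μ, (range ω).Finite → ∃ N, ∀ n, Pos ω N n := by
  have := hμ.1
  obtain ⟨δ, hδ, hδ1, hst⟩ := h.stage1 h0 hs hη
  have h1 : ∀ S : Finset V, μ ({ω | ∀ k, Valid G v ω k} ∩ ({ω | ∀ k, ω k ∈ (S : Set V)} ∩
      ({ω | ∀ N, ∃ n ≥ N, HasPos ω n} ∩ {ω | ∀ N, ¬ ∀ n, Pos ω N n}))) = 0 := by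
    intro S
    refine null_of_density μ (measurableSet_valid.inter ((measurableSet_range_sub _).inter
      (MeasurableSet.inter ?_ ?_))) (θ := ENNReal.ofReal (1 - δ ^ S.card))
      (ENNReal.ofReal_lt_one.2 (by linarith [pow_pos hδ S.card])) fun p hp M => ?_
    · simp only [setOf_forall, setOf_exists, setOf_and]
      exact MeasurableSet.iInter fun N => MeasurableSet.iUnion fun n =>
        (MeasurableSet.const _).inter (measurableSet_hasPos n)
    · simp only [setOf_forall (p := fun N ω => ¬ ∀ n, Pos ω N n)]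
      exact MeasurableSet.iInter fun N => (measurableSet_pos N).compl
    · obtain ⟨n, hn, hpos⟩ := hp.2.2.1 M
      refine ⟨n, hn, le_trans (measure_mono ?_) (hst μ hμ S n p (hp.2.1 n) ?_ hpos)⟩
      · exact fun z hz => ⟨hz.1.2.2.2 n, hz.2⟩
      · intro x _ y hy
        obtain ⟨k, -, -, rfl⟩ := exists_step_of_pos hy
        exact hp.2.1 _
  have h2 := ae_all_iff.2 fun S : Finset V => measure_eq_zero_iff_ae_notMem.1 (h1 S)
  have h3 := ae_all_iff.2 fun c : Finset V × ℕ =>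
    measure_eq_zero_iff_ae_notMem.1 (h.stage0 hγ hG hu hμ c.1 c.2)
  filter_upwards [h2, h3, hμ.ae_valid] with ω h2 h3 hv hfin
  by_contra hc
  have hS : ∀ k, ω k ∈ (hfin.toFinset : Set V) := fun k => by simp
  refine h2 hfin.toFinset ⟨hv, hS, fun N => ?_, fun N hN => hc ⟨N, hN⟩⟩
  by_contra hN
  push Not at hN
  exact h3 (hfin.toFinset, N) ⟨hv, hS, hN⟩

theorem Ctx.ae_unique (h : Ctx G nb D) (hγ : 1 < γ) {μ : Measure (ℕ → V)}
    (hμ : IsWalkLaw G γ v μ) : ∀ᵐ ω ∂μ, ∀ N, (∀ n, Pos ω N n) → ∀ x y z,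
      (∃ᶠ n in atTop, ω n = x ∧ ω (n + 1) = y) →
      (∃ᶠ n in atTop, ω n = x ∧ ω (n + 1) = z) → y = z := by
  have h1 := ae_all_iff.2 fun c : {c : ℕ × V × V × V // c.2.2.1 ≠ c.2.2.2} =>
    measure_eq_zero_iff_ae_notMem.1 (h.stage2 hγ hμ c.1.1 c.1.2.1 c.2)
  filter_upwards [h1] with ω hω N hP x y z hy hz
  by_contra hne
  exact hω ⟨(N, x, y, z), hne⟩ ⟨hP, hy, hz⟩

end Pool.Agent.MP_856411_pr

end

section

open MeasureTheory Set Filter Topology
open scoped ENNReal

namespace Pool.Agent.MP_856411_pr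

variable {V : Type} {G : SimpleGraph V} {nb : V → Finset V} {D : ℕ} {γ : ℝ} {v : V}

theorem Ctx.dom_general (h : Ctx G nb D) (hγ : 0 < γ) :
    Dom G nb γ v fun j => (D : ℝ) * D ^ γ * (1 / (j : ℝ) ^ γ) := by
  classical
  intro ω n hv ⟨y0, hy0⟩
  have hD : (0 : ℝ) < D := by exact_mod_cast h.one_le v
  obtain ⟨y, hy, hmax⟩ := Finset.exists_max_image (nb (ω n)) (cross ω n (ω n)) (h.ne _)
  have hc : 0 < cross ω n (ω n) y := hy0.trans_le (hmax y0 (h.mem_of_pos hv hy0))
  set c := cross ω n (ω n) y with hcdef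
  have h1 : out nb ω n (ω n) ≤ D * c.toNat := by
    calc out nb ω n (ω n) ≤ ∑ _z ∈ nb (ω n), c.toNat :=
          Finset.sum_le_sum fun z hz => Int.toNat_le_toNat (hmax z hz)
      _ = (nb (ω n)).card * c.toNat := by simp
      _ ≤ D * c.toNat := Nat.mul_le_mul_right _ (h.card _)
  have h2 : c.toNat ≤ out nb ω n (ω n) :=
    Finset.single_le_sum (f := fun z => (cross ω n (ω n) z).toNat) (fun _ _ => Nat.zero_le _) hy
  have h3 : (0 : ℝ) < out nb ω n (ω n) := by exact_mod_cast (by omega : 0 < out nb ω n (ω n))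
  have h4 : ((c.toNat : ℕ) : ℝ) = (c : ℝ) := by
    have : ((c.toNat : ℕ) : ℤ) = c := by omega
    exact_mod_cast this
  have h5 : (out nb ω n (ω n) : ℝ) ^ γ ≤ D ^ γ * (c : ℝ) ^ γ := by
    rw [← Real.mul_rpow hD.le (by exact_mod_cast hc.le)]
    refine Real.rpow_le_rpow h3.le ?_ hγ.le
    rw [← h4]
    exact_mod_cast h1
  have h6 : (c : ℝ) ^ γ ≤ ∑ y ∈ (nb (ω n)).filter (fun y => 0 < cross ω n (ω n) y),
      weight γ (cross ω n (ω n) y) := by
    rw [← weight_of_pos γ hc]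
    exact Finset.single_le_sum (f := fun y => weight γ (cross ω n (ω n) y))
      (fun _ _ => (weight_pos _ _).le) (Finset.mem_filter.2 ⟨hy, hc⟩)
  have h7 : ∑ y ∈ (nb (ω n)).filter (fun y => ¬ 0 < cross ω n (ω n) y),
      weight γ (cross ω n (ω n) y) ≤ D := by
    calc _ ≤ ∑ _y ∈ (nb (ω n)).filter (fun y => ¬ 0 < cross ω n (ω n) y), (1 : ℝ) :=
          Finset.sum_le_sum fun z hz => weight_le_one hγ (not_lt.1 (Finset.mem_filter.1 hz).2)
      _ ≤ D := by
          simp only [Finset.sum_const, nsmul_eq_mul, mul_one]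
          exact_mod_cast (Finset.card_filter_le _ _).trans (h.card _)
  refine h7.trans (le_trans ?_ (mul_le_mul_of_nonneg_left h6 (by positivity)))
  have h8 : 0 < (out nb ω n (ω n) : ℝ) ^ γ := Real.rpow_pos_of_pos h3 _
  beta_reduce
  rw [mul_one_div, div_mul_eq_mul_div, le_div_iff₀ h8, mul_assoc]
  exact mul_le_mul_of_nonneg_left h5 hD.le

theorem Ctx.dom_cycle (h : Ctx G nb D) (h2 : ∀ x, (nb x).card = 2) (hγ : 0 < γ) :
    Dom G nb γ v fun j => if j ≤ 1 then 1 else ((j : ℝ) - 1) ^ (-(2 * γ)) := by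
  classical
  intro ω n hv ⟨y, hy⟩
  have hym := h.mem_of_pos hv hy
  obtain ⟨z, hyz, hnb⟩ : ∃ z, y ≠ z ∧ nb (ω n) = {y, z} := by
    obtain ⟨a, b, hab, he⟩ := Finset.card_eq_two.1 (h2 (ω n))
    rw [he, Finset.mem_insert, Finset.mem_singleton] at hym
    rcases hym with rfl | rfl
    · exact ⟨b, hab, he⟩
    · exact ⟨a, hab.symm, he.trans (Finset.pair_comm _ _)⟩
  have hs := h.sum_le hv (ω n)
  rw [hnb, Finset.sum_pair hyz] at hs
  have hz : ¬ 0 < cross ω n (ω n) z := by omega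
  have ho : out nb ω n (ω n) = (cross ω n (ω n) y).toNat := by
    unfold out
    rw [hnb, Finset.sum_pair hyz]
    omega
  rw [ho, hnb, Finset.sum_filter, Finset.sum_filter, Finset.sum_pair hyz, Finset.sum_pair hyz]
  simp only [hy, hz, not_true, not_false_iff, if_true, if_false, zero_add, add_zero]
  set c := cross ω n (ω n) y
  rw [weight_of_pos γ hy]
  have hc1 : (1 : ℝ) ≤ c := by exact_mod_cast hy
  split_ifs with hc
  · rw [one_mul]
    exact (weight_le_one hγ (not_lt.1 hz)).trans (Real.one_le_rpow hc1 hγ.le)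
  · have h4 : ((c.toNat : ℕ) : ℝ) = (c : ℝ) := by
      have : ((c.toNat : ℕ) : ℤ) = c := by omega
      exact_mod_cast this
    have h5 : (2 : ℝ) ≤ c := by exact_mod_cast (by omega : (2 : ℤ) ≤ c)
    have h6 : (c : ℝ) - 1 ≤ -(cross ω n (ω n) z : ℝ) := by
      have : c - 1 ≤ -cross ω n (ω n) z := by omega
      exact_mod_cast this
    rw [h4, weight_of_neg γ (by omega)]
    calc (-(cross ω n (ω n) z : ℝ)) ^ (-γ) ≤ ((c : ℝ) - 1) ^ (-γ) :=
          Real.rpow_le_rpow_of_nonpos (by linarith) h6 (by linarith)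
      _ = ((c : ℝ) - 1) ^ (-(2 * γ)) * ((c : ℝ) - 1) ^ γ := by
          rw [← Real.rpow_add (by linarith)]; congr 1; ring
      _ ≤ _ := mul_le_mul_of_nonneg_left (Real.rpow_le_rpow (by linarith) (by linarith) hγ.le)
          (Real.rpow_nonneg (by linarith) _)

theorem summable_cycle (hγ : 1 / 2 < γ) :
    Summable fun j : ℕ => if j ≤ 1 then (1 : ℝ) else ((j : ℝ) - 1) ^ (-(2 * γ)) := by
  rw [← summable_nat_add_iff 2]
  have h1 := (summable_nat_add_iff 1).2 (Real.summable_nat_rpow.2 (by linarith : -(2 * γ) < -1))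
  refine h1.congr fun j => ?_
  have : ¬ j + 2 ≤ 1 := by omega
  rw [if_neg this]
  push_cast
  congr 1
  ring

theorem exists_circ (h : ¬ G.IsAcyclic) : ∃ m u, Circ G m u := by
  simp only [SimpleGraph.IsAcyclic, not_forall, not_not] at h
  obtain ⟨x, c, hc⟩ := h
  have hm := hc.three_le_length
  haveI : NeZero c.length := ⟨by omega⟩
  refine ⟨c.length, fun i => c.getVert i.val, hm, fun i j hij => ?_, fun i => ?_⟩
  · refine ZMod.val_injective _ (hc.getVert_injOn' ?_ ?_ hij)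
    · have := ZMod.val_lt i
      simp only [mem_setOf_eq]; omega
    · have := ZMod.val_lt j
      simp only [mem_setOf_eq]; omega
  · have h1 : i + 1 = ((i.val + 1 : ℕ) : ZMod c.length) := by simp
    have h2 : c.getVert ((i.val + 1) % c.length) = c.getVert (i.val + 1) := by
      rcases Nat.lt_or_eq_of_le (Nat.succ_le_of_lt (ZMod.val_lt i)) with h | h
      · rw [Nat.mod_eq_of_lt h]
      · have h' : i.val + 1 = c.length := h
        rw [h']; simp
    rw [h1, ZMod.val_natCast, h2]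
    exact c.adj_getVert_succ (ZMod.val_lt i)

/-- a walk with infinite range meets unvisited squares infinitely often -/
def Fresh (G : SimpleGraph V) : Prop :=
  ∀ ω : ℕ → V, (range ω).Infinite → ∀ M, ∃ n ≥ M, ∃ u : ZMod 4 → V, Circ G 4 u ∧ u 0 = ω n ∧
    ∀ j, ∀ k < n, ω k ≠ u j

variable [MeasurableSpace V] [DiscreteMeasurableSpace V] [Countable V]

theorem Ctx.ae_finite_range (h : Ctx G nb D) (hγ : 0 < γ) (hF : Fresh G) {η : ℕ → ℝ}
    (h0 : ∀ j, 0 ≤ η j) (hs : Summable η) (hη : Dom G nb γ v η) {μ : Measure (ℕ → V)}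
    (hμ : IsWalkLaw G γ v μ) : ∀ᵐ ω ∂μ, (range ω).Finite := by
  classical
  have := hμ.1
  obtain ⟨δ, hδ, hδ1, hst⟩ := h.stage1 h0 hs hη
  have hD : (1 : ℝ) ≤ D := by exact_mod_cast h.one_le v
  have hρ : (0 : ℝ) < 1 / D := by positivity
  have hm : MeasurableSet {ω : ℕ → V | (range ω).Infinite} := by
    have : {ω : ℕ → V | (range ω).Infinite} = ⋂ S : Finset V, {ω | ∀ k, ω k ∈ (S : Set V)}ᶜ := by
      ext ω
      simp only [mem_setOf_eq, mem_iInter, mem_compl_iff]
      exact ⟨fun h S hS => h (S.finite_toSet.subset (range_subset_iff.2 hS)),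
        fun h hf => h hf.toFinset fun k => by simp⟩
    rw [this]
    exact MeasurableSet.iInter fun S => (measurableSet_range_sub _).compl
  have h1 : μ ({ω | ∀ k, Valid G v ω k} ∩ {ω | (range ω).Infinite}) = 0 := by
    refine null_of_density μ (measurableSet_valid.inter hm)
      (θ := ENNReal.ofReal (1 - (1 / D) ^ 4 * δ ^ 4)) (ENNReal.ofReal_lt_one.2 (by
        have := mul_pos (pow_pos hρ 4) (pow_pos hδ 4)
        linarith)) fun p hp M => ?_
    obtain ⟨n, hn, u, hu, hu0, hfr⟩ := hF p hp.2 M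
    refine ⟨n, hn, ?_⟩
    have hπ0 : (fun j : ℕ => u j) 0 = p n := by simpa using hu0
    let ω := splice p n fun j : ℕ => u j
    have hv : ∀ k, Valid G v ω k := (hp.1 n).splice hπ0 fun j => by
      push_cast
      exact hu.adj j
    have hω : ∀ j : ℕ, ω (n + j) = u j := splice_add hπ0
    have hfr' : ∀ j, ∀ k < n, ω k ≠ u j := fun j k hk => by
      rw [show ω k = p k from splice_mem p n _ k hk.le]
      exact hfr j k hk
    have hstep : ∀ t (j : ZMod 4) y, 0 < cross ω t (u j) y →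
        ∃ i : ℕ, n + i < t ∧ (i : ZMod 4) = j ∧ y = u (j + 1) := by
      intro t j y hy
      obtain ⟨k, hk, h1, h2⟩ := exists_step_of_pos hy
      have h3 : n ≤ k := not_lt.1 fun hh => hfr' j k hh h1
      obtain ⟨i, rfl⟩ := Nat.exists_eq_add_of_le h3
      rw [hω] at h1
      rw [add_assoc, hω] at h2
      refine ⟨i, hk, hu.inj h1, ?_⟩
      rw [← h2, ← hu.inj h1]
      push_cast
      rfl
    have h1 := hμ.step.lower ω n hρ.le 4 fun i hi1 hi2 => by
      refine h.trans_ge hγ (hv i) (fun y => ?_) ((hv (i + 1)).2 i (Nat.lt_succ_self i))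
      obtain ⟨j, rfl⟩ := Nat.exists_eq_add_of_le hi1
      by_contra hc
      rw [hω] at hc
      obtain ⟨i', h1, h2, -⟩ := hstep _ _ _ (not_le.1 hc)
      have h3 := congrArg ZMod.val h2
      rw [ZMod.val_natCast, ZMod.val_natCast] at h3
      omega
    rw [cyl_eq_of_mem (splice_mem p n _)] at h1
    have e0 : ω n = u 0 := by simpa using hω 0
    have e1 : ω (n + 1) = u 1 := by simpa using hω 1
    have e4 : ω (n + 4) = u 0 := hω 4
    let S : Finset V := Finset.univ.image u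
    have hSc : S.card = 4 := by
      rw [Finset.card_image_of_injective _ hu.inj]; rfl
    have hS : ∀ x ∈ S, ∀ y, 0 < cross ω (n + 4) x y → y ∈ S := fun x hx y hy => by
      obtain ⟨j, -, rfl⟩ := Finset.mem_image.1 hx
      obtain ⟨_, -, -, rfl⟩ := hstep _ _ _ hy
      exact Finset.mem_image_of_mem _ (Finset.mem_univ _)
    have hS0 : ω (n + 4) ∈ S := e4 ▸ Finset.mem_image_of_mem _ (Finset.mem_univ _)
    have h2 := hst μ hμ S (n + 4) ω hS0 hS ⟨u 1, by
      have hb : ∀ k, ¬ (ω k = u 1 ∧ ω (k + 1) = u 0) := fun k hk => by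
        have h3 : n ≤ k := not_lt.1 fun hh => hfr' 1 k hh hk.1
        obtain ⟨i, rfl⟩ := Nat.exists_eq_add_of_le h3
        rw [add_assoc, hω, hω] at hk
        push_cast at hk
        exact hu.no_back i hk
      have h3 := cross_mono (Nat.zero_le n) fun k _ _ => hb k
      have h4 := cross_mono (show n + 1 ≤ n + 4 by omega) fun k _ _ => hb k
      have h5 := cross_succ_fwd (ω := ω) (n := n) ((hv (n + 1)).2 n (Nat.lt_succ_self n)).ne
      rw [e0, e1] at h5
      rw [cross_zero] at h3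
      rw [e4]
      omega⟩
    rw [hSc] at h2
    refine sub_bound μ (measurableSet_cyl (n + 4) ω)
      ((cyl_anti (Nat.le_add_right _ _) ω).trans (cyl_eq_of_mem (splice_mem p n _)).subset)
      (pow_pos hρ _).le (pow_pos hδ _).le (pow_le_one₀ hδ.le hδ1) h1
      (le_trans (measure_mono fun z hz => mem_inter (fun hP => hz.1.2 ?_) hz.2) h2)
    refine ((finite_range fun i : Fin (n + 4) => z i).union S.finite_toSet).subset ?_
    rintro _ ⟨k, rfl⟩
    rcases lt_or_ge k (n + 4) with hk | hk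
    · exact Or.inl ⟨⟨k, hk⟩, rfl⟩
    · refine Or.inr ((hP k).mem hk ?_ ?_)
      · rw [hz.2 _ le_rfl]; exact hS0
      · rw [cross_congr hz.2]; exact hS
  filter_upwards [measure_eq_zero_iff_ae_notMem.1 h1, hμ.ae_valid] with ω h1 hv
  by_contra hc
  exact h1 ⟨hv, hc⟩

theorem summable_general (D : ℕ) (hγ : 1 < γ) :
    Summable fun j : ℕ => (D : ℝ) * D ^ γ * (1 / (j : ℝ) ^ γ) :=
  (Real.summable_one_div_nat_rpow.2 hγ).mul_left _

theorem Ctx.ae_trapped (h : Ctx G nb D) (hγ : 1 < γ) (hG : G.Preconnected) {m : ℕ}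
    {u : ZMod m → V} (hu : Circ G m u) {μ : Measure (ℕ → V)} (hμ : IsWalkLaw G γ v μ) :
    ∀ᵐ ω ∂μ, (range ω).Finite → Trapped G ω := by
  have hγ0 : 0 < γ := by linarith
  filter_upwards [h.ae_eventually_pos hγ0 hG hu (fun j => by positivity) (summable_general D hγ)
    (h.dom_general hγ0) hμ, h.ae_unique hγ hμ, hμ.ae_valid] with ω h1 h2 hv hfin
  obtain ⟨N, hN⟩ := h1 hfin
  exact trapped_of_unique (fun k => (hv (k + 1)).2 k (Nat.lt_succ_self k)) hfin hN (h2 N hN)

theorem Ctx.ae_trapped_cycle (h : Ctx G nb D) (h2 : ∀ x, (nb x).card = 2) (hγ : 1 / 2 < γ)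
    (hG : G.Preconnected) {m : ℕ} {u : ZMod m → V} (hu : Circ G m u) {μ : Measure (ℕ → V)}
    (hμ : IsWalkLaw G γ v μ) : ∀ᵐ ω ∂μ, (range ω).Finite → Trapped G ω := by
  classical
  have hγ0 : 0 < γ := by linarith
  filter_upwards [h.ae_eventually_pos hγ0 hG hu (fun j => by
      split_ifs with hj
      · exact zero_le_one
      · refine Real.rpow_nonneg ?_ _
        have : (1 : ℝ) ≤ j := by exact_mod_cast (by omega : 1 ≤ j)
        linarith) (summable_cycle hγ)
    (h.dom_cycle h2 hγ0) hμ, hμ.ae_valid] with ω h1 hv hfin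
  obtain ⟨N, hN⟩ := h1 hfin
  refine trapped_of_unique (fun k => (hv (k + 1)).2 k (Nat.lt_succ_self k)) hfin hN
    fun x y z hy hz => ?_
  by_contra hne
  have hy' := pos_of_frequently hN hy le_rfl
  have hz' := pos_of_frequently hN hz le_rfl
  have h3 : ({y, z} : Finset V) = nb x := by
    refine Finset.eq_of_subset_of_card_le ?_ (by rw [h2, Finset.card_pair hne])
    rw [Finset.insert_subset_iff, Finset.singleton_subset_iff]
    exact ⟨h.mem_of_pos (hv N) hy', h.mem_of_pos (hv N) hz'⟩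
  have h4 := h.sum_le (hv N) x
  rw [← h3, Finset.sum_pair hne] at h4
  omega

theorem finite_main {V : Type} [Finite V] [MeasurableSpace V] [DiscreteMeasurableSpace V]
    (G : SimpleGraph V) (hG : G.Connected) (hT : ¬ G.IsTree) (v : V) :
    ((∀ x, (G.neighborSet x).ncard = 2) → IsThreshold G v (1 / 2)) ∧
    ((¬ ∀ x, (G.neighborSet x).ncard = 2) → IsThreshold G v 1) := by
  classical
  haveI := Fintype.ofFinite V
  obtain ⟨m, u, hu⟩ := exists_circ (G := G) fun ha => hT ⟨hG, ha⟩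
  have h : Ctx G (fun x => G.neighborFinset x) (Fintype.card V) := by
    refine ⟨fun x y => by simp, fun x => Finset.card_le_univ _, fun x => ?_⟩
    obtain ⟨π, -, h0, ha, -⟩ := exists_plan hG.preconnected hu x
    exact ⟨π 1, by simpa [h0] using ha 0⟩
  refine ⟨fun h2 γ hγ => ⟨h.exists_law γ v, fun μ hμ => ⟨fun hle => ?_, fun hlt => ?_⟩⟩,
    fun h2 γ hγ => ⟨h.exists_law γ v, fun μ hμ => ⟨fun hle => ?_, fun hlt => ?_⟩⟩⟩
  · exact h.ae_not_trapped hμ fun ω hω => h.not_summable_half hγ hle hω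
  · refine (h.ae_trapped_cycle (fun x => ?_) hlt hG.preconnected hu hμ).mono
      fun ω hω => hω (toFinite _)
    rw [← h2 x, ← ncard_coe_finset, SimpleGraph.coe_neighborFinset]
  · exact h.ae_not_trapped hμ fun ω hω => h.not_summable_one hG.preconnected h2 hγ hle hω
  · exact (h.ae_trapped hlt hG.preconnected hu hμ).mono fun ω hω => hω (toFinite _)

end Pool.Agent.MP_856411_pr

end

section

open MeasureTheory Set Filter Topology
open scoped ENNReal

namespace Pool.Agent.MP_856411_pr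

variable {d : ℕ}

theorem lattice_adj {x y : Fin d → ℤ} : (latticeGraph d).Adj x y ↔
    ∃ i, ∃ s : ℤ, (s = 1 ∨ s = -1) ∧ y = x + Pi.single i s := by
  unfold latticeGraph
  rw [SimpleGraph.fromRel_adj]
  constructor
  · rintro ⟨-, ⟨i, h⟩ | ⟨i, h⟩⟩
    · exact ⟨i, 1, Or.inl rfl, h⟩
    · exact ⟨i, -1, Or.inr rfl, by rw [h, Pi.single_neg]; abel⟩
  · rintro ⟨i, s, hs, h⟩
    refine ⟨fun he => ?_, ?_⟩
    · have := congrFun h i
      rw [← he] at this
      simp at this
      omega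
    · rcases hs with rfl | rfl
      · exact Or.inl ⟨i, h⟩
      · exact Or.inr ⟨i, by rw [h, Pi.single_neg]; abel⟩

theorem lattice_ctx (hd : 2 ≤ d) : Ctx (latticeGraph d) (fun x => Finset.univ.image
    fun c : Fin d × Bool => x + Pi.single c.1 (if c.2 then 1 else -1)) (2 * d) := by
  refine ⟨fun x y => ?_, fun x => Finset.card_image_le.trans (by simp [mul_comm]), fun x => ?_⟩
  · rw [lattice_adj]
    simp only [Finset.mem_image, Finset.mem_univ, true_and]
    constructor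
    · rintro ⟨⟨i, b⟩, rfl⟩
      exact ⟨i, _, by cases b <;> simp, rfl⟩
    · rintro ⟨i, s, rfl | rfl, rfl⟩
      · exact ⟨(i, true), rfl⟩
      · exact ⟨(i, false), rfl⟩
  · haveI : Nonempty (Fin d) := ⟨⟨0, by omega⟩⟩
    exact Finset.univ_nonempty.image _

theorem lattice_preconnected : (latticeGraph d).Preconnected := by
  have h1 : ∀ (i : Fin d) (n : ℤ) (x : Fin d → ℤ),
      (latticeGraph d).Reachable x (x + Pi.single i n) := by
    intro i n x
    induction n using Int.induction_on with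
    | zero => simp
    | succ n ih =>
      refine ih.trans (SimpleGraph.Adj.reachable (lattice_adj.2 ⟨i, 1, Or.inl rfl, ?_⟩))
      rw [Pi.single_add, add_assoc]
    | pred n ih =>
      refine ih.trans (SimpleGraph.Adj.reachable (lattice_adj.2 ⟨i, -1, Or.inr rfl, ?_⟩))
      rw [add_assoc, ← Pi.single_add]; rfl
  have h2 : ∀ (z x : Fin d → ℤ) (s : Finset (Fin d)),
      (latticeGraph d).Reachable x (x + ∑ i ∈ s, Pi.single i (z i)) := by
    intro z x s
    induction s using Finset.induction_on with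
    | empty => simp
    | insert i s hi ih =>
      rw [Finset.sum_insert hi, add_comm (Pi.single i (z i) : Fin d → ℤ), ← add_assoc]
      exact ih.trans (h1 _ _ _)
  intro x y
  have := h2 (y - x) x Finset.univ
  rwa [Finset.univ_sum_single, add_sub_cancel] at this

theorem lattice_square (x : Fin d → ℤ) {i j : Fin d} (hij : i ≠ j) {s : ℤ} (hs : s = 1 ∨ s = -1) :
    ∃ u : ZMod 4 → Fin d → ℤ, Circ (latticeGraph d) 4 u ∧ u 0 = x ∧ ∀ t, s * x i ≤ s * u t i := by
  let u : Fin 4 → Fin d → ℤ := ![x, x + Pi.single i s, x + Pi.single i s + Pi.single j 1,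
    x + Pi.single j 1]
  have hs0 : s ≠ 0 := by omega
  refine ⟨u, ⟨by norm_num, ?_, ?_⟩, rfl, ?_⟩
  · intro a b hab
    have h1 := congrFun hab i
    have h2 := congrFun hab j
    fin_cases a <;> fin_cases b <;> first | rfl | (exfalso; simp [u, hij, hij.symm, hs0] at h1 h2)
  · intro a
    rw [lattice_adj]
    fin_cases a
    · exact ⟨i, s, hs, rfl⟩
    · exact ⟨j, 1, Or.inl rfl, rfl⟩
    · refine ⟨i, -s, by omega, ?_⟩
      change x + Pi.single j 1 = x + Pi.single i s + Pi.single j 1 + Pi.single i (-s)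
      rw [Pi.single_neg]; abel
    · refine ⟨j, -1, Or.inr rfl, ?_⟩
      change x = x + Pi.single j 1 + Pi.single j (-1)
      rw [Pi.single_neg]; abel
  · intro t
    fin_cases t <;> simp [u, hij, hij.symm] <;> rcases hs with rfl | rfl <;> simp

theorem lattice_fresh (hd : 2 ≤ d) : Fresh (latticeGraph d) := by
  classical
  intro ω hω M
  have h1 : ∃ i, ∃ s : ℤ, (s = 1 ∨ s = -1) ∧ ∀ B, ∃ n, B < s * ω n i := by
    by_contra hc
    push Not at hc
    choose B1 hB1 using fun i => hc i 1 (Or.inl rfl)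
    choose B2 hB2 using fun i => hc i (-1) (Or.inr rfl)
    refine hω ((finite_Icc (fun i => -B2 i) B1).subset ?_)
    rintro _ ⟨n, rfl⟩
    exact ⟨fun i => by have := hB2 i n; simp only; omega, fun i => by simpa using hB1 i n⟩
  obtain ⟨i, s, hs, hB⟩ := h1
  obtain ⟨k0, -, hk0⟩ := Finset.exists_max_image (Finset.range (M + 1)) (fun k => s * ω k i)
    ⟨0, by simp⟩
  have hex := hB (s * ω k0 i)
  obtain ⟨j, hj⟩ : ∃ j : Fin d, i ≠ j := by
    haveI : Nontrivial (Fin d) := Fin.nontrivial_iff_two_le.2 hd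
    obtain ⟨j, hj⟩ := exists_ne i
    exact ⟨j, hj.symm⟩
  obtain ⟨u, hu, hu0, hut⟩ := lattice_square (ω (Nat.find hex)) hj hs
  refine ⟨Nat.find hex, ?_, u, hu, hu0, fun t k hk he => ?_⟩
  · by_contra hlt
    exact absurd (Nat.find_spec hex) (not_lt.2 (hk0 _ (Finset.mem_range.2 (by omega))))
  · have h2 := Nat.find_min hex hk
    have h3 := Nat.find_spec hex
    have h4 := hut t
    rw [← he] at h4
    omega

theorem lattice_not_regular (hd : 2 ≤ d) :
    ¬ ∀ x, ((latticeGraph d).neighborSet x).ncard = 2 := by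
  intro h
  let i : Fin d := ⟨0, by omega⟩
  let j : Fin d := ⟨1, by omega⟩
  have hij : i ≠ j := by simp [i, j]
  have hfin : ((latticeGraph d).neighborSet 0).Finite := finite_of_ncard_ne_zero (by rw [h]; simp)
  have : 2 < ((latticeGraph d).neighborSet 0).ncard := by
    rw [two_lt_ncard hfin]
    refine ⟨0 + Pi.single i 1, lattice_adj.2 ⟨i, 1, Or.inl rfl, rfl⟩, 0 + Pi.single i (-1),
      lattice_adj.2 ⟨i, -1, Or.inr rfl, rfl⟩, 0 + Pi.single j 1,
      lattice_adj.2 ⟨j, 1, Or.inl rfl, rfl⟩, fun he => ?_, fun he => ?_, fun he => ?_⟩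
    all_goals
      have := congrFun he i
      simp [hij] at this
  rw [h] at this
  exact lt_irrefl _ this

theorem lattice_main (d : ℕ) (hd : 2 ≤ d) (v : Fin d → ℤ) : IsThreshold (latticeGraph d) v 1 := by
  have h := lattice_ctx hd
  refine fun γ hγ => ⟨h.exists_law γ v, fun μ hμ => ⟨fun hle => ?_, fun hlt => ?_⟩⟩
  · exact h.ae_not_trapped hμ fun ω hω =>
      h.not_summable_one lattice_preconnected (lattice_not_regular hd) hγ hle hω
  · obtain ⟨u, hu, -⟩ := lattice_square (d := d) 0 (i := ⟨0, by omega⟩) (j := ⟨1, by omega⟩)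
      (by simp) (Or.inl rfl)
    filter_upwards [h.ae_trapped hlt lattice_preconnected hu hμ, h.ae_finite_range hγ
      (lattice_fresh hd) (fun j => by positivity) (summable_general (2 * d) hlt)
      (h.dom_general hγ) hμ] with ω h1 h2 using h1 h2

end Pool.Agent.MP_856411_pr

end
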